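import Mathlib

set_option autoImplicit false

/-! Hilbert 90 and Kummer theory for a compact group acting continuously on a field. -/

namespace Pool.Agent.Helper95.EC

/-- a compact group acting continuously (open stabilizers) and faithfully on a field -/
structure Gal (Γ K : Type) [Group Γ] [TopologicalSpace Γ] [Field K] [MulSemiringAction Γ K] :
    Prop where
  top : IsTopologicalGroup Γ
  cpt : CompactSpace Γ
  stab : ∀ x : K, IsOpen {g : Γ | g • x = x}
  faith : ∀ g : Γ, (∀ x : K, g • x = x) → g = 1

section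

variable {Γ K : Type} [Group Γ] [TopologicalSpace Γ] [Field K] [MulSemiringAction Γ K]

/-- restriction to a closed subgroup -/
theorem Gal.sub (h : Gal Γ K) (H : Subgroup Γ) (hH : IsClosed (H : Set Γ)) : Gal H K := by
  have := h.top
  have := h.cpt
  refine ⟨inferInstance, isCompact_iff_compactSpace.1 hH.isCompact, ?_, ?_⟩
  · intro x
    exact (h.stab x).preimage continuous_subtype_val
  · intro g hg
    exact Subtype.ext (h.faith g.1 hg)

/-- the Galois group of a Galois extension -/
theorem Gal.of_isGalois (F K : Type) [Field F] [Field K] [Algebra F K] [IsGalois F K] :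
    Gal (K ≃ₐ[F] K) K := by
  refine ⟨inferInstance, inferInstance, ?_, ?_⟩
  · intro x
    have h1 : FiniteDimensional F (IntermediateField.adjoin F {x}) :=
      IntermediateField.adjoin.finiteDimensional (Algebra.IsIntegral.isIntegral x)
    have h2 := (IntermediateField.adjoin F {x}).fixingSubgroup_isOpen
    have h3 : {g : K ≃ₐ[F] K | g • x = x}
        = ((IntermediateField.adjoin F {x}).fixingSubgroup : Set (K ≃ₐ[F] K)) := by
      ext g
      simp only [Set.mem_ofPred_eq, SetLike.mem_coe]
      rw [IntermediateField.mem_fixingSubgroup_iff]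
      constructor
      · intro hg y hy
        have h4 : IntermediateField.adjoin F {x} ≤
            IntermediateField.fixedField (Subgroup.zpowers g) := by
          rw [IntermediateField.adjoin_le_iff, Set.singleton_subset_iff]
          rintro ⟨k, hk⟩
          have : k ∈ MulAction.stabilizer (K ≃ₐ[F] K) x :=
            (Subgroup.zpowers_le.2 (by exact hg)) hk
          exact this
        exact h4 hy ⟨g, Subgroup.mem_zpowers g⟩
      · intro hg
        exact hg x (IntermediateField.subset_adjoin F {x} rfl)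
    rw [h3]
    exact h2
  · intro g hg
    ext x
    exact hg x

/-- Hilbert's Theorem 90 for locally constant cocycles -/
theorem h90 (h : Gal Γ K) (f : Γ → K) (hf : IsLocallyConstant f) (h0 : ∀ g, f g ≠ 0)
    (hc : ∀ g k : Γ, f (g * k) = f g * g • f k) :
    ∃ b : K, b ≠ 0 ∧ ∀ g : Γ, f g * g • b = b := by
  have := h.top
  have := h.cpt
  classical
  -- right translations fixing `f`
  let N0 : Set Γ := {n | ∀ g, f (g * n) = f g}
  have hN0 : IsOpen N0 := by
    have h1 : IsClosed (Prod.snd '' {q : Γ × Γ | f (q.1 * q.2) ≠ f q.1}) := by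
      apply isClosedMap_snd_of_compactSpace
      have h2 : IsLocallyConstant fun q : Γ × Γ => (f (q.1 * q.2), f q.1) :=
        (hf.comp_continuous continuous_mul).prodMk (hf.comp_continuous continuous_fst)
      have h3 : IsOpen ((fun q : Γ × Γ => (f (q.1 * q.2), f q.1)) ⁻¹' {z | z.1 = z.2}) :=
        h2 {z | z.1 = z.2}
      have h4 : {q : Γ × Γ | f (q.1 * q.2) ≠ f q.1}
        = ((fun q : Γ × Γ => (f (q.1 * q.2), f q.1)) ⁻¹' {z | z.1 = z.2})ᶜ := rfl
      rw [h4]
      exact h3.isClosed_compl
    rw [← isClosed_compl_iff]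
    convert h1 using 1
    ext n
    simp only [N0, Set.mem_compl_iff, Set.mem_ofPred_eq, not_forall, Set.mem_image, Prod.exists,
      exists_eq_right]
  have hst : ∀ x : K, IsClosed {g : Γ | g • x = x} := by
    intro x
    have h1 : {g : Γ | g • x = x} = (MulAction.stabilizer Γ x : Set Γ) := rfl
    rw [h1]
    exact Subgroup.isClosed_of_isOpen _ (h.stab x)
  obtain ⟨X, hX⟩ := (hN0.isClosed_compl.isCompact).elim_finite_subfamily_closed
    (fun x : K => {g : Γ | g • x = x}) hst (by
      rw [Set.eq_empty_iff_forall_notMem]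
      rintro g ⟨h1, h2⟩
      apply h1
      have h3 : g = 1 := h.faith g (fun x => Set.mem_iInter.1 h2 x)
      intro k
      rw [h3, mul_one])
  let N : Subgroup Γ := fixingSubgroup Γ (X : Set K)
  have hNm : ∀ g : Γ, g ∈ N ↔ ∀ x ∈ X, g • x = x := by
    intro g
    rw [mem_fixingSubgroup_iff]
    rfl
  have hNN : ∀ n ∈ N, ∀ g, f (g * n) = f g := by
    intro n hn
    by_contra hcon
    have : n ∈ (N0ᶜ ∩ ⋂ x ∈ X, {g : Γ | g • x = x}) := by
      refine ⟨hcon, ?_⟩
      simp only [Set.mem_iInter]
      exact fun x hx => (hNm n).1 hn x hx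
    rw [hX] at this
    exact this
  have hNo : IsOpen (N : Set Γ) := by
    have h1 : (N : Set Γ) = ⋂ x ∈ X, {g : Γ | g • x = x} := by
      ext g
      simp only [SetLike.mem_coe, hNm, Set.mem_iInter, Set.mem_ofPred_eq]
    rw [h1]
    exact isOpen_biInter_finset fun x _ => h.stab x
  have hfin : Finite (Γ ⧸ N) := Subgroup.quotient_finite_of_isOpen N hNo
  have _ := Fintype.ofFinite (Γ ⧸ N)
  -- the monoid of fixed elements
  let M : Submonoid K :=
    { carrier := {x | ∀ n ∈ N, n • x = x}
      mul_mem' := by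
        intro a b ha hb n hn
        rw [smul_mul', ha n hn, hb n hn]
      one_mem' := by
        intro n _
        rw [smul_one] }
  let φ : (Γ ⧸ N) → (M →* K) := fun q =>
    { toFun := fun x => (Quotient.out q : Γ) • (x : K)
      map_one' := by
        change (Quotient.out q : Γ) • ((1 : M) : K) = 1
        rw [Submonoid.coe_one, smul_one]
      map_mul' := by
        intro x y
        rw [Submonoid.coe_mul, smul_mul'] }
  have hout : ∀ g : Γ, ∃ n ∈ N, g = Quotient.out (g : Γ ⧸ N) * n := by
    intro g
    refine ⟨(Quotient.out (g : Γ ⧸ N))⁻¹ * g, ?_, by group⟩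
    rw [← QuotientGroup.eq, QuotientGroup.out_eq']
  have hφ : Function.Injective φ := by
    intro q q' hq
    have h1 : (Quotient.out q)⁻¹ * Quotient.out q' ∈ N := by
      rw [hNm]
      intro x hx
      have hxM : x ∈ M := fun n hn => (hNm n).1 hn x hx
      have h2 : (Quotient.out q : Γ) • x = (Quotient.out q' : Γ) • x :=
        DFunLike.congr_fun hq ⟨x, hxM⟩
      rw [mul_smul, ← h2, inv_smul_smul]
    rw [← QuotientGroup.eq, QuotientGroup.out_eq', QuotientGroup.out_eq'] at h1
    exact h1
  have hli := (linearIndependent_monoidHom M K).comp φ hφ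
  rw [Fintype.linearIndependent_iff] at hli
  have hne : ∃ x : M, ∑ q : Γ ⧸ N, f (Quotient.out q) * (Quotient.out q : Γ) • (x : K) ≠ 0 := by
    by_contra hcon
    push Not at hcon
    have h1 := hli (fun q => f (Quotient.out q)) (by
      ext x
      rw [Finset.sum_apply]
      exact hcon x) (QuotientGroup.mk (1 : Γ))
    exact h0 (Quotient.out (QuotientGroup.mk (1 : Γ) : Γ ⧸ N)) h1
  obtain ⟨x, hx⟩ := hne
  refine ⟨_, hx, ?_⟩
  intro g
  rw [Finset.smul_sum, Finset.mul_sum]
  refine Fintype.sum_equiv (MulAction.toPerm g) _ _ ?_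
  intro q
  rw [smul_mul', ← mul_assoc]
  have h1 : (MulAction.toPerm g q : Γ ⧸ N) = ((g * Quotient.out q : Γ) : Γ ⧸ N) := by
    conv_lhs => rw [← QuotientGroup.out_eq' q]
    rfl
  obtain ⟨n, hn, hn'⟩ := hout (g * Quotient.out q)
  rw [h1]
  have h2 : f (g * Quotient.out q) = f (Quotient.out ((g * Quotient.out q : Γ) : Γ ⧸ N)) := by
    conv_lhs => rw [hn']
    exact hNN n hn _
  have h3 : (Quotient.out ((g * Quotient.out q : Γ) : Γ ⧸ N) : Γ) • (x : K)
      = g • (Quotient.out q : Γ) • (x : K) := by
    rw [← mul_smul]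
    conv_rhs => rw [hn']
    rw [mul_smul]
    have : n • (x : K) = x := x.2 n hn
    rw [this]
  rw [h3, ← h2, hc]

end

end Pool.Agent.Helper95.EC
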