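import Pool.Agent.Helper95.EC.C2
import Pool.Agent.Helper58.ET.K2

set_option autoImplicit false
set_option linter.unusedSectionVars false

/-! K2MAP: a symbol which is zero in `K₂(F)/p` has zero cup product, and is a norm. -/

namespace Pool.Agent.Helper95.EC

open Pool.Agent.ETC (PCl Nm IsChi Glo LocZ)
open Pool.Agent.Helper59.EA (CobOn Cob)
open Pool.Agent.Helper58.ET (St Ns)
open scoped TensorProduct

section

variable {p : ℕ} [hp : Fact p.Prime] {F K : Type} [Field F] [Field K] [Algebra F K] {ζ : F}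
variable (hP : PCl p F K) (hζ : IsPrimitiveRoot ζ p)
  {A : Type} [CommGroup A] {φ : Fˣ →* A} (hφ : Function.Surjective φ)
  (hk : ∀ u : Fˣ, φ u = 1 ↔ ∃ c : Fˣ, u = c ^ p)
include hP hζ hφ hk

theorem chi_phi {u v : Fˣ} (h : φ u = φ v) (g : K ≃ₐ[F] K) : chi p ζ u g = chi p ζ v g := by
  have h1 : φ (u * v⁻¹) = 1 := by rw [map_mul, map_inv, h, mul_inv_cancel]
  obtain ⟨c, hc⟩ := (hk _).1 h1
  have h2 : u = c ^ p * v := by rw [← hc, inv_mul_cancel_right]
  rw [h2, chi_mul_left hP hζ, chi_pow_p hP hζ, zero_add]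

/-- a map on `K₂`: the relations are mapped to coboundaries -/
theorem cob_of_st {a b : Fˣ}
    (h : Additive.ofMul (φ a) ⊗ₜ[ℤ] Additive.ofMul (φ b) ∈ St φ) :
    Cob p (cup (K := K) p ζ a b) := by
  classical
  -- coboundaries
  let B : AddSubgroup ((K ≃ₐ[F] K) → (K ≃ₐ[F] K) → ZMod p) :=
    { carrier := {c | Cob p c}
      add_mem' := by
        rintro c c' ⟨ρ, hρ, h⟩ ⟨ρ', hρ', h'⟩
        refine ⟨fun g => ρ g + ρ' g, hρ.comp₂ hρ' (· + ·), fun g k => ?_⟩
        rw [Pi.add_apply, Pi.add_apply, h, h']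
        ring
      zero_mem' := ⟨fun _ => 0, IsLocallyConstant.const 0, fun g k => by
        rw [Pi.zero_apply, Pi.zero_apply]
        ring⟩
      neg_mem' := by
        rintro c ⟨ρ, hρ, h⟩
        refine ⟨fun g => - ρ g, hρ.comp fun x => -x, fun g k => ?_⟩
        rw [Pi.neg_apply, Pi.neg_apply, h]
        ring }
  let Q := ((K ≃ₐ[F] K) → (K ≃ₐ[F] K) → ZMod p) ⧸ B
  -- the characters of classes
  let ch : A → (K ≃ₐ[F] K) → ZMod p := fun x => chi p ζ (Function.surjInv hφ x)
  have hch : ∀ u : Fˣ, ch (φ u) = chi p ζ u := by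
    intro u
    funext g
    exact chi_phi hP hζ hφ hk (Function.surjInv_eq hφ _) g
  have hchm : ∀ x y : A, ch (x * y) = ch x + ch y := by
    intro x y
    obtain ⟨u, rfl⟩ := hφ x
    obtain ⟨v, rfl⟩ := hφ y
    rw [← map_mul, hch, hch, hch]
    funext g
    exact chi_mul_left hP hζ u v g
  let q : ((K ≃ₐ[F] K) → (K ≃ₐ[F] K) → ZMod p) →+ Q := QuotientAddGroup.mk' B
  have hq : ∀ c, q c = 0 ↔ Cob p c := fun c => QuotientAddGroup.eq_zero_iff c
  let f : Additive A →+ Additive A →+ Q :=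
    AddMonoidHom.mk' (fun x => AddMonoidHom.mk' (fun y =>
      q (fun g k => ch (Additive.toMul x) g * ch (Additive.toMul y) k)) (by
        intro y y'
        rw [← map_add]
        congr 1
        funext g k
        rw [toMul_add, hchm, Pi.add_apply, Pi.add_apply, Pi.add_apply]
        ring)) (by
      intro x x'
      ext y
      change q _ = q _ + q _
      rw [← map_add]
      congr 1
      funext g k
      rw [toMul_add, hchm, Pi.add_apply, Pi.add_apply, Pi.add_apply]
      ring)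
  let f' : Additive A ⊗[ℤ] Additive A →+ Q :=
    TensorProduct.liftAddHom f (by
      intro r x y
      rw [map_zsmul, map_zsmul]
      rfl)
  have hf' : ∀ u v : Fˣ, f' (Additive.ofMul (φ u) ⊗ₜ[ℤ] Additive.ofMul (φ v))
      = q (cup p ζ u v) := by
    intro u v
    change q (fun g k => ch (φ u) g * ch (φ v) k) = _
    rw [hch, hch]
    rfl
  have hst : St φ ≤ f'.ker := by
    unfold St
    rw [AddSubgroup.closure_le]
    rintro _ ⟨u, v, huv, rfl⟩
    change f' _ = 0
    rw [hf', hq]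
    exact cob_steinberg hP hζ huv
  have h1 := hst h
  rw [AddMonoidHom.mem_ker, hf', hq] at h1
  exact h1

/-- **K2MAP** -/
theorem nm_of_st {a b : Fˣ}
    (h : Additive.ofMul (φ a) ⊗ₜ[ℤ] Additive.ofMul (φ b) ∈ St φ) : Nm p a b :=
  (nm_iff hP hζ a b).2 (cob_of_st hP hζ hφ hk h)

end

end Pool.Agent.Helper95.EC
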