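import Pool.Agent.Helper95.EC.Cup
import Pool.Agent.Helper66.ETC.Defs
import Pool.Agent.Helper59.EA.Lift

set_option autoImplicit false
set_option linter.unusedSectionVars false

/-! The Kummer characters `chi p ζ a : Gal(K/F) → ℤ/p` and their cup products. -/

namespace Pool.Agent.Helper95.EC

open Pool.Agent.ETC (PCl)
open Pool.Agent.Helper59.EA (CobOn Cob)

section

variable {F K : Type} [Field F] [Field K] [Algebra F K]

open Classical in
/-- the Kummer character of `a`: `g α = ζ ^ (chi a g) α` for `α ^ p = a` -/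
noncomputable def chi (p : ℕ) (ζ : F) (a : Fˣ) (g : K ≃ₐ[F] K) : ZMod p :=
  if h : ∃ i : ZMod p, ∃ α : K, α ^ p = algebraMap F K (a : F) ∧
    g α = algebraMap F K ζ ^ i.val * α then h.choose else 0

/-- the cup product of two Kummer characters -/
noncomputable def cup (p : ℕ) (ζ : F) (a b : Fˣ) (g h : K ≃ₐ[F] K) : ZMod p :=
  chi p ζ a g * chi p ζ b h

end

section

variable {p : ℕ} [hp : Fact p.Prime] {F K : Type} [Field F] [Field K] [Algebra F K] {ζ : F}

theorem hz (hζ : IsPrimitiveRoot ζ p) (K : Type) [Field K] [Algebra F K] :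
    IsPrimitiveRoot (algebraMap F K ζ) p :=
  hζ.map_of_injective (algebraMap F K).injective

theorem smul_alg (g : K ≃ₐ[F] K) (x : F) : g • algebraMap F K x = algebraMap F K x :=
  g.commutes x

theorem alg_ne (a : Fˣ) : algebraMap F K (a : F) ≠ 0 := by
  rw [Ne, map_eq_zero]
  exact a.ne_zero

theorem root_ne {a : Fˣ} {α : K} (hα : α ^ p = algebraMap F K (a : F)) : α ≠ 0 := by
  rintro rfl
  rw [zero_pow hp.out.ne_zero] at hα
  exact alg_ne a hα.symm

theorem exists_kumroot (hP : PCl p F K) (a : Fˣ) : ∃ α : K, α ^ p = algebraMap F K (a : F) :=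
  hP.root _

/-- the defining property of `chi` -/
theorem chi_spec (hζ : IsPrimitiveRoot ζ p) {a : Fˣ} {α : K}
    (hα : α ^ p = algebraMap F K (a : F)) (g : K ≃ₐ[F] K) :
    g α = algebraMap F K ζ ^ (chi p ζ a g).val * α := by
  have hζ' := hz hζ K
  have hα0 := root_ne hα
  have := NeZero.mk hp.out.ne_zero
  have key : ∀ {x y : K}, y ≠ 0 → x ^ p = y ^ p → ∃ i : ZMod p, x = algebraMap F K ζ ^ i.val * y := by
    intro x y hy hxy
    have h1 : (x / y) ^ p = 1 := by rw [div_pow, hxy, div_self (pow_ne_zero _ hy)]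
    obtain ⟨i, hi, hi'⟩ := hζ'.eq_pow_of_pow_eq_one h1
    refine ⟨(i : ZMod p), ?_⟩
    rw [ZMod.val_cast_of_lt hi, hi', div_mul_cancel₀ _ hy]
  have hex : ∃ i : ZMod p, ∃ α : K, α ^ p = algebraMap F K (a : F) ∧
      g α = algebraMap F K ζ ^ i.val * α := by
    obtain ⟨i, hi⟩ := key hα0 (x := g α) (by rw [← map_pow, hα, g.commutes])
    exact ⟨i, α, hα, hi⟩
  have h2 : chi p ζ a g = hex.choose := by
    unfold chi
    rw [dif_pos hex]
  obtain ⟨α', hα', hg⟩ := hex.choose_spec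
  rw [← h2] at hg
  obtain ⟨j, hj⟩ := key (root_ne hα') (x := α) (y := α') (by rw [hα, hα'])
  rw [hj, map_mul, map_pow, g.commutes, hg]
  ring

theorem chi_eq (hζ : IsPrimitiveRoot ζ p) {a : Fˣ} {α : K}
    (hα : α ^ p = algebraMap F K (a : F)) {g : K ≃ₐ[F] K} {i : ZMod p}
    (h : g α = algebraMap F K ζ ^ i.val * α) : chi p ζ a g = i := by
  rw [chi_spec hζ hα g] at h
  exact ZMod.val_injective p ((hz hζ K).pow_inj (ZMod.val_lt _) (ZMod.val_lt _)
    (mul_right_cancel₀ (root_ne hα) h))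

/-- the element of `F*` in the additive notation for `K*` -/
def emb (K : Type) [Field K] [Algebra F K] (a : Fˣ) : KU K := ku (algebraMap F K (a : F)) (alg_ne a)

theorem vl_emb (a : Fˣ) : vl (emb K a) = algebraMap F K (a : F) := rfl

theorem emb_fix (g : K ≃ₐ[F] K) (a : Fˣ) : g • emb K a = emb K a := by
  apply vl_inj
  rw [vl_smul, vl_emb, smul_alg]

/-- `chi` is the Kummer character in additive notation -/
theorem chi_kum (hζ : IsPrimitiveRoot ζ p) {a : Fˣ} {β : KU K} (hβ : p • β = emb K a)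
    (g : K ≃ₐ[F] K) : g • β = β + zt (hz hζ K) (chi p ζ a g) := by
  apply vl_inj
  rw [vl_smul, vl_add, vl_zt]
  have h1 : vl β ^ p = algebraMap F K (a : F) := by rw [← vl_nsmul, hβ, vl_emb]
  have h2 := chi_spec hζ h1 g
  rw [mul_comm]
  exact h2

theorem chi_kum_iff (hζ : IsPrimitiveRoot ζ p) {a : Fˣ} {β : KU K} (hβ : p • β = emb K a)
    {g : K ≃ₐ[F] K} {i : ZMod p} (h : g • β = β + zt (hz hζ K) i) : chi p ζ a g = i := by
  rw [chi_kum hζ hβ g] at h
  exact zt_inj (hz hζ K) (add_left_cancel h)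

theorem exists_kroot (hP : PCl p F K) (x : KU K) : ∃ β : KU K, p • β = x :=
  exists_root hP.root x

theorem galF (hP : PCl p F K) : Gal (K ≃ₐ[F] K) K := by
  have := hP.gal
  exact Gal.of_isGalois F K

theorem zfix (g : K ≃ₐ[F] K) : g • algebraMap F K ζ = algebraMap F K ζ := smul_alg g ζ

variable (hP : PCl p F K) (hζ : IsPrimitiveRoot ζ p)
include hP hζ

theorem chi_mul (a : Fˣ) (g h : K ≃ₐ[F] K) : chi p ζ a (g * h) = chi p ζ a g + chi p ζ a h := by
  obtain ⟨β, hβ⟩ := exists_kroot hP (emb K a)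
  apply chi_kum_iff hζ hβ
  rw [mul_smul, chi_kum hζ hβ h, smul_add, chi_kum hζ hβ g, zt_fix (hz hζ K) (fun g => zfix g),
    map_add]
  abel

theorem chi_lc (a : Fˣ) : IsLocallyConstant (chi p ζ a : (K ≃ₐ[F] K) → ZMod p) := by
  obtain ⟨β, hβ⟩ := exists_kroot hP (emb K a)
  obtain ⟨χ, _, hχc, hχ⟩ := exists_kum (galF hP) (hz hζ K) (fun g => zfix g)
    (b := emb K a) (fun g => emb_fix g a) hβ
  have : (chi p ζ a : (K ≃ₐ[F] K) → ZMod p) = χ := by
    funext g
    exact chi_kum_iff hζ hβ (hχ g)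
  rw [this]
  exact hχc

theorem chi_at_one (a : Fˣ) : chi p ζ a (1 : K ≃ₐ[F] K) = 0 := by
  have := chi_mul hP hζ a 1 1
  rw [mul_one] at this
  exact left_eq_add.1 this

theorem chi_at_inv (a : Fˣ) (g : K ≃ₐ[F] K) : chi p ζ a g⁻¹ = - chi p ζ a g := by
  have := chi_mul hP hζ a g g⁻¹
  rw [mul_inv_cancel, chi_at_one hP hζ] at this
  exact (neg_eq_of_add_eq_zero_right this.symm).symm

theorem chi_mul_left (a b : Fˣ) (g : K ≃ₐ[F] K) :
    chi p ζ (a * b) g = chi p ζ a g + chi p ζ b g := by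
  obtain ⟨α, hα⟩ := exists_kroot hP (emb K a)
  obtain ⟨β, hβ⟩ := exists_kroot hP (emb K b)
  have h1 : p • (α + β) = emb K (a * b) := by
    rw [smul_add, hα, hβ]
    apply vl_inj
    rw [vl_add, vl_emb, vl_emb, vl_emb, Units.val_mul, map_mul]
  apply chi_kum_iff hζ h1
  rw [smul_add, chi_kum hζ hα, chi_kum hζ hβ, map_add]
  abel

theorem chi_one_left (g : K ≃ₐ[F] K) : chi p ζ (1 : Fˣ) g = 0 := by
  have := chi_mul_left hP hζ 1 1 g
  rw [mul_one] at this
  exact left_eq_add.1 this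

theorem chi_inv_left (a : Fˣ) (g : K ≃ₐ[F] K) : chi p ζ a⁻¹ g = - chi p ζ a g := by
  have := chi_mul_left hP hζ a a⁻¹ g
  rw [mul_inv_cancel, chi_one_left hP hζ] at this
  exact (neg_eq_of_add_eq_zero_right this.symm).symm

theorem chi_pow_left (a : Fˣ) (n : ℕ) (g : K ≃ₐ[F] K) :
    chi p ζ (a ^ n) g = n * chi p ζ a g := by
  induction n with
  | zero => rw [pow_zero, chi_one_left hP hζ, Nat.cast_zero, zero_mul]
  | succ n ih => rw [pow_succ, chi_mul_left hP hζ, ih, Nat.cast_succ, add_mul, one_mul]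

theorem chi_pow_p (a : Fˣ) (g : K ≃ₐ[F] K) : chi p ζ (a ^ p) g = 0 := by
  rw [chi_pow_left hP hζ, ZMod.natCast_self, zero_mul]

/-- `chi a` vanishes on `Z` if and only if a `p`-th root of `a` is fixed by `Z` -/
theorem chi_zero_on (a : Fˣ) (Z : Subgroup (K ≃ₐ[F] K)) :
    (∀ σ ∈ Z, chi p ζ a σ = 0) ↔
      ∃ l : K, (∀ σ ∈ Z, σ l = l) ∧ l ^ p = algebraMap F K (a : F) := by
  constructor
  · intro h
    obtain ⟨α, hα⟩ := exists_kumroot hP a
    refine ⟨α, fun σ hσ => ?_, hα⟩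
    rw [chi_spec hζ hα, h σ hσ, ZMod.val_zero, pow_zero, one_mul]
  · rintro ⟨l, hl, hl'⟩ σ hσ
    apply chi_eq hζ hl'
    rw [hl σ hσ, ZMod.val_zero, pow_zero, one_mul]

/-- the element `x` of `K` is fixed by the whole group -/
theorem mem_of_fix {x : K} (h : ∀ g : K ≃ₐ[F] K, g x = x) : ∃ e : F, algebraMap F K e = x := by
  have := hP.gal
  exact (InfiniteGalois.mem_range_algebraMap_iff_fixed x).2 h

theorem chi_zero_iff (a : Fˣ) :
    (∀ g : K ≃ₐ[F] K, chi p ζ a g = 0) ↔ ∃ c : Fˣ, a = c ^ p := by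
  constructor
  · intro h
    obtain ⟨l, hl, hl'⟩ := (chi_zero_on hP hζ a ⊤).1 (fun σ _ => h σ)
    obtain ⟨e, he⟩ := mem_of_fix hP hζ (x := l) (fun g => hl g (Subgroup.mem_top g))
    have he0 : e ≠ 0 := by
      rintro rfl
      rw [map_zero] at he
      exact root_ne hl' he.symm
    refine ⟨Units.mk0 e he0, Units.ext ?_⟩
    apply (algebraMap F K).injective
    rw [← hl', ← he, Units.val_pow_eq_pow_val, Units.val_mk0, map_pow]
  · rintro ⟨c, rfl⟩ g
    exact chi_pow_p hP hζ c g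

/-- characters of a closed subgroup -/
theorem kumZ (Z : Subgroup (K ≃ₐ[F] K)) (hZ : IsClosed (Z : Set (K ≃ₐ[F] K))) (χ : Z → ZMod p)
    (hχ : ∀ g h, χ (g * h) = χ g + χ h) (hχc : IsLocallyConstant χ) :
    ∃ x β : K, x ≠ 0 ∧ (∀ σ ∈ Z, σ x = x) ∧ β ^ p = x ∧
      ∀ σ : Z, (σ : K ≃ₐ[F] K) β = algebraMap F K ζ ^ (χ σ).val * β := by
  obtain ⟨β, h1, h2⟩ := kum_surj ((galF hP).sub Z hZ) (hz hζ K) (fun g => zfix g.1) hχ hχc
  refine ⟨vl (p • β), vl β, vl_ne _, ?_, (vl_nsmul _ _).symm, ?_⟩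
  · intro σ hσ
    have := h2 ⟨σ, hσ⟩
    have h3 := congrArg vl this
    rw [vl_smul] at h3
    exact h3
  · intro σ
    have h3 := congrArg vl (h1 σ)
    rw [vl_smul, vl_add, vl_zt, mul_comm] at h3
    exact h3

theorem chi_of_kum {t : Fˣ} {x β l : K} (hβ : β ^ p = x) (hx0 : x ≠ 0)
    (hx : x = algebraMap F K (t : F) * l ^ p) {σ : K ≃ₐ[F] K} (hl : σ l = l) {i : ZMod p}
    (hσ : σ β = algebraMap F K ζ ^ i.val * β) : chi p ζ t σ = i := by
  have hl0 : l ≠ 0 := by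
    rintro rfl
    rw [zero_pow hp.out.ne_zero, mul_zero] at hx
    exact hx0 hx
  have h1 : (β / l) ^ p = algebraMap F K (t : F) := by
    rw [div_pow, hβ, hx, mul_div_cancel_right₀ _ (pow_ne_zero _ hl0)]
  apply chi_eq hζ h1
  rw [map_div₀, hl, hσ, mul_div_assoc]

/-- every character of `Gal(K/F)` is a Kummer character -/
theorem chi_surj (χ : (K ≃ₐ[F] K) → ZMod p) (hχ : ∀ g h, χ (g * h) = χ g + χ h)
    (hχc : IsLocallyConstant χ) : ∃ a : Fˣ, ∀ g, chi p ζ a g = χ g := by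
  obtain ⟨β, h1, h2⟩ := kum_surj (galF hP) (hz hζ K) (fun g => zfix g) hχ hχc
  obtain ⟨e, he⟩ := mem_of_fix hP hζ (x := vl (p • β)) (fun g => by
    have h3 := congrArg vl (h2 g)
    rw [vl_smul] at h3
    exact h3)
  have he0 : e ≠ 0 := by
    rintro rfl
    rw [map_zero] at he
    exact vl_ne _ he.symm
  have h4 : p • β = emb K (Units.mk0 e he0) := by
    apply vl_inj
    rw [vl_emb, Units.val_mk0, he]
  exact ⟨Units.mk0 e he0, fun g => chi_kum_iff hζ h4 (h1 g)⟩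

/-- an element where a nonzero character takes the value `1` -/
theorem exists_chi_one {a : Fˣ} {Z : Subgroup (K ≃ₐ[F] K)} {σ : K ≃ₐ[F] K} (hσ : σ ∈ Z)
    (h : chi p ζ a σ ≠ 0) : ∃ τ ∈ Z, chi p ζ a τ = 1 := by
  refine ⟨σ ^ (chi p ζ a σ)⁻¹.val, pow_mem hσ _, ?_⟩
  have h1 : ∀ n : ℕ, chi p ζ a (σ ^ n) = n * chi p ζ a σ := by
    intro n
    induction n with
    | zero => rw [pow_zero, chi_at_one hP hζ, Nat.cast_zero, zero_mul]
    | succ n ih => rw [pow_succ, chi_mul hP hζ, ih, Nat.cast_succ, add_mul, one_mul]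
  rw [h1, ZMod.natCast_zmod_val, inv_mul_cancel₀ h]

end

end Pool.Agent.Helper95.EC
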