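import Mathlib
import Pool.Agent.ETC.Base

set_option autoImplicit false

/-! # The maximal `p`-extension of an intermediate field -/

namespace Pool.Agent.Helper95.EC

open Pool.Agent.ETC

lemma pow_fix {p : ℕ} {F K : Type} [Field F] [Field K] [Algebra F K] (h : PCl p F K)
    (σ : K ≃ₐ[F] K) (α : K) : ∃ k : ℕ, (σ ^ p ^ k) α = α := by
  have := h.gal
  let N : FiniteGaloisIntermediateField F K := FiniteGaloisIntermediateField.adjoin F {α}
  obtain ⟨k, hk⟩ := h.pgp N.toIntermediateField inferInstance inferInstance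
  have hα : α ∈ N.toIntermediateField :=
    FiniteGaloisIntermediateField.subset_adjoin F {α} (Set.mem_singleton α)
  refine ⟨k, ?_⟩
  have h1 : Nat.card (N.toIntermediateField ≃ₐ[F] N.toIntermediateField) = p ^ k := by
    rw [← hk]
    exact IsGalois.card_aut_eq_finrank F N.toIntermediateField
  have h2 : (AlgEquiv.restrictNormalHom N.toIntermediateField σ) ^ p ^ k = 1 := by
    rw [← h1]
    exact pow_card_eq_one'
  rw [← map_pow] at h2
  have h3 := AlgEquiv.restrictNormal_commutes (σ ^ p ^ k) N.toIntermediateField ⟨α, hα⟩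
  have h4 : (σ ^ p ^ k).restrictNormal N.toIntermediateField = 1 := h2
  rw [h4] at h3
  exact h3.symm

/-- **PCLUP** -/
theorem t_PCLUP : S_PCLUP := by
  intro p hp F E K _ _ _ _ _ _ _ h
  have := h.gal
  have hEK : IsGalois E K := IsGalois.tower_top_of_isGalois F E K
  refine ⟨hEK, h.root, ?_⟩
  intro L hL hG
  have := hL
  have := hG
  obtain ⟨α, hα⟩ := Field.exists_primitive_element E L
  have hpg : IsPGroup p (L ≃ₐ[E] L) := by
    intro g
    obtain ⟨σ, hσ⟩ := AlgEquiv.restrictNormalHom_surjective (F := E) (K₁ := L) K g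
    obtain ⟨k, hk⟩ := pow_fix h (σ.restrictScalars F) (α : K)
    refine ⟨k, ?_⟩
    have h1 : ∀ n : ℕ, ((σ.restrictScalars F : K ≃ₐ[F] K) ^ n) (α : K) = (σ ^ n) (α : K) := by
      intro n
      induction n with
      | zero => rfl
      | succ n ih =>
        rw [pow_succ', pow_succ', AlgEquiv.mul_apply, AlgEquiv.mul_apply, ih]
        rfl
    rw [h1] at hk
    have h2 : (g ^ p ^ k) α = α := by
      rw [← hσ, ← map_pow]
      apply Subtype.ext
      have h3 := AlgEquiv.restrictNormal_commutes (σ ^ p ^ k) L α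
      exact h3.trans hk
    ext x
    have hx : x ∈ IntermediateField.adjoin E {α} := by rw [hα]; trivial
    have h4 : IntermediateField.adjoin E {α} ≤
        IntermediateField.fixedField (Subgroup.zpowers (g ^ p ^ k)) := by
      rw [IntermediateField.adjoin_le_iff, Set.singleton_subset_iff]
      rintro ⟨m, hm⟩
      have h5 : Subgroup.zpowers (g ^ p ^ k) ≤ MulAction.stabilizer (L ≃ₐ[E] L) α := by
        rw [Subgroup.zpowers_le]
        exact h2
      exact h5 hm
    have h6 := h4 hx ⟨g ^ p ^ k, Subgroup.mem_zpowers _⟩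
    exact congrArg Subtype.val h6
  obtain ⟨k, hk⟩ := IsPGroup.iff_card.1 hpg
  refine ⟨k, ?_⟩
  rw [← hk]
  exact (IsGalois.card_aut_eq_finrank E L).symm

end Pool.Agent.Helper95.EC
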