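import Pool.Agent.Helper95.EC.NC

set_option autoImplicit false
set_option linter.unusedSectionVars false

/-! C2 for Galois groups; bilinearity of cup products; Steinberg relations. -/

namespace Pool.Agent.Helper95.EC

open Pool.Agent.ETC (PCl Nm IsChi Glo LocZ)
open Pool.Agent.Helper59.EA (CobOn Cob)
open Pool.Agent.Y920.EP (nmG)
open Polynomial

section

variable {G : Type} [Group G] [TopologicalSpace G] {p : ℕ} {Z : Subgroup G}

theorem cobOn_add {c c' : G → G → ZMod p} (h : CobOn p Z c) (h' : CobOn p Z c') :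
    CobOn p Z fun g k => c g k + c' g k := by
  obtain ⟨ρ, hρ, h⟩ := h
  obtain ⟨ρ', hρ', h'⟩ := h'
  refine ⟨fun g => ρ g + ρ' g, hρ.comp₂ hρ' (· + ·), fun g k => ?_⟩
  simp only [h, h']
  ring

theorem cobOn_neg {c : G → G → ZMod p} (h : CobOn p Z c) :
    CobOn p Z fun g k => - c g k := by
  obtain ⟨ρ, hρ, h⟩ := h
  refine ⟨fun g => - ρ g, hρ.comp fun x => -x, fun g k => ?_⟩
  simp only [h]
  ring

theorem cobOn_sub {c c' : G → G → ZMod p} (h : CobOn p Z c) (h' : CobOn p Z c') :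
    CobOn p Z fun g k => c g k - c' g k := by
  have := cobOn_add h (cobOn_neg h')
  simpa only [sub_eq_add_neg] using this

theorem cobOn_congr {c c' : G → G → ZMod p} (h : CobOn p Z c)
    (he : ∀ g ∈ Z, ∀ k ∈ Z, c g k = c' g k) : CobOn p Z c' := by
  obtain ⟨ρ, hρ, h⟩ := h
  exact ⟨ρ, hρ, fun g k => by rw [← he g g.2 k k.2]; exact h g k⟩

theorem cobOn_mono {Z' : Subgroup G} {c : G → G → ZMod p} (h : CobOn p Z c) (hZ : Z' ≤ Z) :
    CobOn p Z' c := by
  obtain ⟨ρ, hρ, h⟩ := h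
  refine ⟨fun g => ρ ⟨g, hZ g.2⟩, ?_, fun g k => h ⟨g, hZ g.2⟩ ⟨k, hZ k.2⟩⟩
  exact hρ.comp_continuous (Continuous.subtype_mk continuous_subtype_val _)

theorem cobOn_zero : CobOn p Z fun _ _ => (0 : ZMod p) :=
  ⟨fun _ => 0, IsLocallyConstant.const 0, fun g k => by ring⟩

end

section

variable {p : ℕ} [hp : Fact p.Prime] {F K : Type} [Field F] [Field K] [Algebra F K] {ζ : F}
variable (hP : PCl p F K) (hζ : IsPrimitiveRoot ζ p)
include hP hζ

theorem cup_mul_right (a b c : Fˣ) (g k : K ≃ₐ[F] K) :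
    cup p ζ a (b * c) g k = cup p ζ a b g k + cup p ζ a c g k := by
  unfold cup
  rw [chi_mul_left hP hζ]
  ring

theorem cup_mul_left (a b c : Fˣ) (g k : K ≃ₐ[F] K) :
    cup p ζ (a * b) c g k = cup p ζ a c g k + cup p ζ b c g k := by
  unfold cup
  rw [chi_mul_left hP hζ]
  ring

theorem cup_inv_right (a b : Fˣ) (g k : K ≃ₐ[F] K) :
    cup p ζ a b⁻¹ g k = - cup p ζ a b g k := by
  unfold cup
  rw [chi_inv_left hP hζ]
  ring

theorem cup_inv_left (a b : Fˣ) (g k : K ≃ₐ[F] K) :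
    cup p ζ a⁻¹ b g k = - cup p ζ a b g k := by
  unfold cup
  rw [chi_inv_left hP hζ]
  ring

/-- the cup product depends only on the classes modulo elements which are `p`-th powers on `Z` -/
theorem cup_congr {Z : Subgroup (K ≃ₐ[F] K)} {a a' b b' : Fˣ}
    (ha : ∀ σ ∈ Z, chi p ζ a σ = chi p ζ a' σ) (hb : ∀ σ ∈ Z, chi p ζ b σ = chi p ζ b' σ)
    (h : CobOn p Z (cup p ζ a b)) : CobOn p Z (cup p ζ a' b') := by
  refine cobOn_congr h fun g hg k hk => ?_
  unfold cup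
  rw [ha g hg, hb k hk]

/-- the norm relation is symmetric, for every `p` -/
theorem nm_symm {a b : Fˣ} (h : Nm p a b) : Nm p b a := by
  rw [nm_iff hP hζ] at h ⊢
  exact cob_comm hP hζ h

omit hP hζ in
/-- `u + v = 1` implies that `v` is a norm for `u` -/
theorem nm_steinberg {u v : Fˣ} (h : (u : F) + v = 1) : Nm p u v := by
  have hp0 := hp.out.pos
  have h1 : (1 - AdjoinRoot.root (X ^ p - C (u : F))) ∣
      algebraMap F (AdjoinRoot (X ^ p - C (u : F))) v := by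
    refine ⟨∑ i ∈ Finset.range p, AdjoinRoot.root (X ^ p - C (u : F)) ^ i, ?_⟩
    rw [mul_neg_geom_sum, Pool.Agent.Y349.EP.root_pow,
      ← map_one (algebraMap F (AdjoinRoot (X ^ p - C (u : F)))), ← map_sub]
    congr 1
    linear_combination h
  have h3 : IsUnit (1 - AdjoinRoot.root (X ^ p - C (u : F))) :=
    isUnit_of_dvd_unit h1 (v.isUnit.map _)
  refine ⟨h3.unit, ?_⟩
  ext
  have h4 := Pool.Agent.Y349.EP.norm_sub_root hp0 (u : F) 1
  rw [map_one, one_pow] at h4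
  have h5 : (v : F) = 1 - u := by linear_combination h
  rw [h5]
  exact h4

omit hP hζ in
/-- `-a` is a norm for `a` -/
theorem nm_neg (a : Fˣ) : Nm p a (-a) := by
  have hp0 := hp.out.pos
  have h0 : AdjoinRoot.root (X ^ p - C (a : F)) ^ p
      = algebraMap F (AdjoinRoot (X ^ p - C (a : F))) a := Pool.Agent.Y349.EP.root_pow _
  have h3 : IsUnit (algebraMap F (AdjoinRoot (X ^ p - C (a : F))) 0
      - AdjoinRoot.root (X ^ p - C (a : F))) := by
    rw [map_zero, zero_sub, IsUnit.neg_iff]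
    apply (isUnit_pow_iff hp.out.ne_zero).1
    rw [h0]
    exact a.isUnit.map _
  refine ⟨h3.unit, ?_⟩
  ext
  have h4 := Pool.Agent.Y349.EP.norm_sub_root hp0 (a : F) 0
  rw [zero_pow hp.out.ne_zero, zero_sub] at h4
  rw [Units.val_neg]
  exact h4

theorem cob_steinberg {u v : Fˣ} (h : (u : F) + v = 1) : Cob p (cup (K := K) p ζ u v) :=
  (nm_iff hP hζ u v).1 (nm_steinberg h)

theorem cob_neg (a : Fˣ) : Cob p (cup (K := K) p ζ a (-a)) :=
  (nm_iff hP hζ a (-a)).1 (nm_neg a)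

/-- **C2.** A cocycle which is a coboundary on the kernel of `chi a` is cohomologous to
`chi b ∪ chi a` for some `b`. -/
theorem C2 {a : Fˣ} (ha : ∃ g : K ≃ₐ[F] K, chi p ζ a g ≠ 0) {N : Subgroup (K ≃ₐ[F] K)}
    (hN : IsOpen (N : Set (K ≃ₐ[F] K))) {c : (K ≃ₐ[F] K) → (K ≃ₐ[F] K) → ZMod p}
    (hc : Pool.Agent.Helper59.EA.IsCoc p N c) {U : Subgroup (K ≃ₐ[F] K)} (hU : ∀ g, g ∈ U ↔ chi p ζ a g = 0)
    (h : CobOn p U c) : ∃ b : Fˣ, Cob p fun g k => c g k - cup p ζ b a g k := by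
  classical
  obtain ⟨σ₀, hσ₀⟩ := ha
  obtain ⟨σ, _, hσ⟩ := exists_chi_one hP hζ (Subgroup.mem_top σ₀) hσ₀
  obtain ⟨ρ, hρ, hρ2⟩ := h
  have hlc := chi_lc (K := K) hP hζ a
  have hUo : IsOpen (U : Set (K ≃ₐ[F] K)) := by
    have h1 : (U : Set (K ≃ₐ[F] K)) = chi p ζ a ⁻¹' {0} := by
      ext g
      exact hU g
    rw [h1]
    exact hlc {0}
  -- extension by zero
  let ρ' : (K ≃ₐ[F] K) → ZMod p := fun g => if h : g ∈ U then ρ ⟨g, h⟩ else 0
  have hρ'c : IsLocallyConstant ρ' := by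
    rw [IsLocallyConstant.iff_exists_open]
    intro g
    by_cases hg : g ∈ U
    · obtain ⟨V, hV, hgV, hV'⟩ := (IsLocallyConstant.iff_exists_open ρ).1 hρ ⟨g, hg⟩
      refine ⟨Subtype.val '' V, hUo.isOpenMap_subtype_val V hV, ⟨_, hgV, rfl⟩, ?_⟩
      rintro _ ⟨k, hk, rfl⟩
      simp only [ρ', dif_pos hg, dif_pos k.2]
      exact hV' k hk
    · refine ⟨(U : Set (K ≃ₐ[F] K))ᶜ, (Subgroup.isClosed_of_isOpen U hUo).isOpen_compl, hg, ?_⟩
      intro k hk
      have hk' : k ∉ U := hk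
      simp only [ρ', dif_neg hg, dif_neg hk']
  have hcl : IsLocallyConstant (fun q : (K ≃ₐ[F] K) × (K ≃ₐ[F] K) => c q.1 q.2) := by
    rw [IsLocallyConstant.iff_exists_open]
    rintro ⟨g, k⟩
    refine ⟨((fun x => g⁻¹ * x) ⁻¹' (N : Set (K ≃ₐ[F] K))) ×ˢ
      ((fun x => k⁻¹ * x) ⁻¹' (N : Set (K ≃ₐ[F] K))),
      (hN.preimage (continuous_const.mul continuous_id)).prod
        (hN.preimage (continuous_const.mul continuous_id)), ⟨?_, ?_⟩, ?_⟩
    · simp
    · simp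
    · rintro ⟨g', k'⟩ ⟨h1, h2⟩
      have := hc.2 g k (g⁻¹ * g') h1 (k⁻¹ * k') h2
      rw [mul_inv_cancel_left, mul_inv_cancel_left] at this
      exact this
  obtain ⟨β, χb, ρ1, hfix, hkum, hρ1, hfin⟩ := c2 (galF hP) (hz hζ K) (fun g => zfix g) hP.root
    (chi_mul hP hζ a) hlc hσ hc.1 hcl hρ'c (by
      intro u v hu hv
      have hu' := (hU u).2 hu
      have hv' := (hU v).2 hv
      have huv' : u * v ∈ U := U.mul_mem hu' hv'
      simp only [ρ', dif_pos hu', dif_pos hv', dif_pos huv']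
      exact hρ2 ⟨u, hu'⟩ ⟨v, hv'⟩)
  obtain ⟨e, he⟩ := mem_of_fix hP hζ (x := vl (p • β)) (fun g => by
    have h3 := congrArg vl (hfix g)
    rw [vl_smul] at h3
    exact h3)
  have he0 : e ≠ 0 := by
    rintro rfl
    rw [map_zero] at he
    exact vl_ne _ he.symm
  have h4 : p • β = emb K (Units.mk0 e he0) := by
    apply vl_inj
    rw [vl_emb, Units.val_mk0, he]
  refine ⟨Units.mk0 e he0, ρ1, hρ1, fun g k => ?_⟩
  change c g k - chi p ζ (Units.mk0 e he0) g * chi p ζ a k = ρ1 g + ρ1 k - ρ1 (g * k)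
  rw [chi_kum_iff hζ h4 (hkum g), hfin g k]
  ring

end

end Pool.Agent.Helper95.EC
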