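import Pool.Agent.Helper95.EC.Kum

set_option autoImplicit false
set_option linter.unusedSectionVars false
set_option linter.unusedSimpArgs false

/-! Cup products with a Kummer character: C2 and the norm criterion, for a compact group acting on
a field. -/

namespace Pool.Agent.Helper95.EC

section

variable {Γ K : Type} [Group Γ] [TopologicalSpace Γ] [Field K] [MulSemiringAction Γ K]
  {p : ℕ} {ζ : K} [hp : Fact p.Prime]

/-- the kernel of a character -/
def kerS {χ : Γ → ZMod p} (hχ : ∀ g k, χ (g * k) = χ g + χ k) : Subgroup Γ where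
  carrier := {g | χ g = 0}
  mul_mem' := by
    intro a b ha hb
    change χ (a * b) = 0
    rw [hχ, show χ a = 0 from ha, show χ b = 0 from hb, add_zero]
  one_mem' := by
    change χ 1 = 0
    have := hχ 1 1
    rw [mul_one] at this
    exact left_eq_add.1 this
  inv_mem' := by
    intro a ha
    change χ a⁻¹ = 0
    have h1 : χ 1 = 0 := by
      have := hχ 1 1
      rw [mul_one] at this
      exact left_eq_add.1 this
    have := hχ a a⁻¹
    rw [mul_inv_cancel, h1, show χ a = 0 from ha, zero_add] at this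
    exact this.symm

theorem kerS_closed {χ : Γ → ZMod p} (hχ : ∀ g k, χ (g * k) = χ g + χ k)
    (hχc : IsLocallyConstant χ) : IsClosed (kerS hχ : Set Γ) :=
  hχc.isClosed_fiber 0

/-- **C2.** A two-cocycle `c` with values in `ℤ/p` whose restriction to the kernel of a character
`χ ≠ 0` is a coboundary is cohomologous to `χ_b ∪ χ` for a fixed element `b = p • β`. -/
theorem c2 (h : Gal Γ K) (hζ : IsPrimitiveRoot ζ p) (hζΓ : ∀ g : Γ, g • ζ = ζ)
    (hroot : ∀ x : K, ∃ y : K, y ^ p = x) {χ : Γ → ZMod p}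
    (hχ : ∀ g k, χ (g * k) = χ g + χ k) (hχc : IsLocallyConstant χ) {σ : Γ} (hσ : χ σ = 1)
    {c : Γ → Γ → ZMod p} (hc : ∀ x y z : Γ, c x y + c (x * y) z = c y z + c x (y * z))
    (hcl : IsLocallyConstant (fun q : Γ × Γ => c q.1 q.2)) {ρ : Γ → ZMod p}
    (hρ : IsLocallyConstant ρ)
    (hcρ : ∀ u v, χ u = 0 → χ v = 0 → c u v = ρ u + ρ v - ρ (u * v)) :
    ∃ (β : KU K) (χb ρ' : Γ → ZMod p), (∀ g : Γ, g • (p • β) = p • β) ∧
      (∀ g : Γ, g • β = β + zt hζ (χb g)) ∧ IsLocallyConstant ρ' ∧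
      ∀ g k, c g k = χb g * χ k + (ρ' g + ρ' k - ρ' (g * k)) := by
  have := h.top
  obtain ⟨b, f, hb, hf, hcf⟩ := cyc (M := KU K) (c := fun g k => zt hζ (c g k))
    (ρ := fun g => zt hζ (ρ g)) (h.stabKU) hχ hχc hσ
    (fun f hf hfc => by
      obtain ⟨θ, hθ⟩ := h90U h (kerS hχ) (kerS_closed hχ hχc) f hf
        (fun g hg k hk => hfc g k hg hk)
      exact ⟨θ, fun u hu => hθ u hu⟩)
    (by
      intro g k l
      have h1 := hc g k l
      rw [zt_fix hζ hζΓ, ← map_sub, ← map_add, ← map_sub]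
      have h2 : c k l - c (g * k) l + c g (k * l) - c g k = 0 := by
        linear_combination -h1
      rw [h2, map_zero])
    (hcl.comp _) (hρ.comp _) (by
      intro u v hu hv
      rw [hcρ u v hu hv, map_sub, map_add, zt_fix hζ hζΓ])
  obtain ⟨β, hβ⟩ := exists_root hroot (-b)
  have hfix : ∀ g : Γ, g • (p • β) = p • β := by
    intro g
    rw [hβ, smul_neg, hb]
  obtain ⟨χb, hχb, hχbc, hkum⟩ := exists_kum h hζ hζΓ (b := -b) (β := β)
    (fun g => by rw [smul_neg, hb]) hβ
  have hf2 : IsLocallyConstant (fun g : Γ => (χ g).val • β) := hχc.comp fun i => i.val • β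
  obtain ⟨ρ', hρ', hρ'2⟩ := inj2 h hζ hζΓ hroot (c := fun g k => c g k - χb g * χ k)
    (f := fun g => f g + - ((χ g).val • β)) (lc_add hf (hf2.comp fun x => -x)) (by
      intro g k
      rw [dd_add, dd_neg, ← carry_cup hζ hχ hkum, map_sub, hβ, smul_neg]
      have := hcf g k
      rw [this]
      abel)
  refine ⟨β, χb, ρ', hfix, hkum, hρ', ?_⟩
  intro g k
  rw [← hρ'2 g k]
  ring

/-- norms give zero cup products -/
theorem cup_of_norm (h : Gal Γ K) (hζ : IsPrimitiveRoot ζ p) (hζΓ : ∀ g : Γ, g • ζ = ζ)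
    (hroot : ∀ x : K, ∃ y : K, y ^ p = x) {χ χb : Γ → ZMod p}
    (hχ : ∀ g k, χ (g * k) = χ g + χ k) (hχc : IsLocallyConstant χ) {σ : Γ} (hσ : χ σ = 1)
    {β y : KU K} (hβ : ∀ g : Γ, g • β = β + zt hζ (χb g))
    (hy : ∀ u, χ u = 0 → u • y = y) (hN : ∑ l ∈ Finset.range p, σ ^ l • y = p • β) :
    ∃ ρ : Γ → ZMod p, IsLocallyConstant ρ ∧ ∀ g k, χb g * χ k = ρ g + ρ k - ρ (g * k) := by
  have := h.top
  let s : ℕ → KU K := fun n => ∑ l ∈ Finset.range n, σ ^ l • y
  have hpow : ∀ g : Γ, g • y = σ ^ (χ g).val • y := by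
    intro g
    conv_lhs => rw [← pow_un (χ := χ) (σ := σ) g, mul_smul, hy _ (chi_un hχ hσ g)]
  have hper : ∀ n, σ ^ (n + p) • y = σ ^ n • y := by
    intro n
    rw [hpow (σ ^ (n + p)), hpow (σ ^ n), chi_pow hχ hσ, chi_pow hχ hσ, Nat.cast_add,
      ZMod.natCast_self, add_zero]
  have hgs : ∀ (g : Γ) n, g • s n = s ((χ g).val + n) - s (χ g).val := by
    intro g n
    simp only [s]
    rw [Finset.sum_range_add, Finset.smul_sum, add_sub_cancel_left]
    refine Finset.sum_congr rfl fun l _ => ?_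
    have h1 : g • σ ^ l • y = (g * σ ^ l) • y := (mul_smul _ _ _).symm
    rw [h1, hpow, hpow (σ ^ ((χ g).val + l)), hχ, chi_pow hχ hσ, chi_pow hχ hσ, Nat.cast_add,
      ZMod.natCast_zmod_val]
  have hsp : ∀ n, s (n + p) = s n + p • β := by
    intro n
    rw [← hN]
    simp only [s]
    rw [add_comm n p, Finset.sum_range_add, add_comm]
    congr 1
    exact Finset.sum_congr rfl fun l _ => by rw [add_comm, hper]
  let f : Γ → KU K := fun g => s (χ g).val
  have hf : IsLocallyConstant f := hχc.comp fun i => s i.val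
  have hdf : ∀ g k, dd f g k = carry χ g k • (p • β) := by
    intro g k
    simp only [dd, f]
    rw [hgs, carry_eq]
    have h1 := ZMod.val_lt (χ g)
    have h2 := ZMod.val_lt (χ k)
    have h3 : (χ (g * k)).val = ((χ g).val + (χ k).val) % p := by rw [hχ, ZMod.val_add]
    split_ifs with h4
    · have h5 : (χ g).val + (χ k).val = (χ (g * k)).val + p := by
        rw [h3, Nat.mod_eq_sub_mod h4, Nat.mod_eq_of_lt (by omega)]
        omega
      rw [h5, hsp, one_smul]
      abel
    · rw [h3, Nat.mod_eq_of_lt (by omega), zero_smul]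
      abel
  obtain ⟨ρ, hρ, hρ2⟩ := inj2 h hζ hζΓ hroot (c := fun g k => χb g * χ k)
    (f := fun g => (χ g).val • β + - f g)
    (lc_add (hχc.comp fun i => i.val • β) (hf.comp fun x => -x)) (by
      intro g k
      rw [dd_add, dd_neg, hdf, ← carry_cup hζ hχ hβ]
      abel)
  exact ⟨ρ, hρ, hρ2⟩

/-- zero cup products give norms -/
theorem norm_of_cup (h : Gal Γ K) (hζ : IsPrimitiveRoot ζ p) (hζΓ : ∀ g : Γ, g • ζ = ζ)
    {χ χb : Γ → ZMod p}
    (hχ : ∀ g k, χ (g * k) = χ g + χ k) (hχc : IsLocallyConstant χ) {σ : Γ} (hσ : χ σ = 1)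
    {β : KU K} (hβ : ∀ g : Γ, g • β = β + zt hζ (χb g)) {ρ : Γ → ZMod p}
    (hρ : IsLocallyConstant ρ) (hc : ∀ g k, χb g * χ k = ρ g + ρ k - ρ (g * k)) :
    ∃ y : KU K, (∀ u, χ u = 0 → u • y = y) ∧ ∑ l ∈ Finset.range p, σ ^ l • y = p • β := by
  have := h.top
  have h2p := hp.out.two_le
  -- the carry cocycle is a coboundary
  let f0 : Γ → KU K := fun g => (χ g).val • β + - zt hζ (ρ g)
  have hf0 : IsLocallyConstant f0 :=
    lc_add (hχc.comp fun i => i.val • β) (hρ.comp fun i => - zt hζ i)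
  have hdf0 : ∀ g k, dd f0 g k = carry χ g k • (p • β) := by
    intro g k
    simp only [f0]
    rw [dd_add, dd_neg, ← carry_cup hζ hχ hβ, hc]
    unfold dd
    rw [zt_fix hζ hζΓ, map_sub, map_add]
    abel
  have hcar0 : ∀ g u, χ u = 0 → carry χ g u = 0 := by
    intro g u hu
    have := ZMod.val_lt (χ g)
    rw [carry_eq, hu, ZMod.val_zero, if_neg (by omega)]
  have hcar0' : ∀ u g, χ u = 0 → carry χ u g = 0 := by
    intro u g hu
    have := ZMod.val_lt (χ g)
    rw [carry_eq, hu, ZMod.val_zero, if_neg (by omega)]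
  obtain ⟨w, hw⟩ := h90U h (kerS hχ) (kerS_closed hχ hχc) f0 hf0 (by
    intro u hu v _
    have h1 := hdf0 u v
    rw [hcar0' u v hu, zero_smul] at h1
    unfold dd at h1
    rw [sub_eq_zero] at h1
    exact h1.symm)
  let f : Γ → KU K := fun g => f0 g - (g • w - w)
  have hdf : ∀ g k, dd f g k = carry χ g k • (p • β) := by
    intro g k
    rw [← hdf0]
    unfold dd
    simp only [f]
    rw [smul_sub, smul_sub, mul_smul]
    abel
  have hfU : ∀ u, χ u = 0 → f u = 0 := by
    intro u hu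
    simp only [f]
    rw [hw u hu, sub_self]
  have hr : ∀ g u, χ u = 0 → f (g * u) = f g := by
    intro g u hu
    have h1 := hdf g u
    rw [hcar0 g u hu, zero_smul] at h1
    unfold dd at h1
    rw [hfU u hu, smul_zero, add_zero, sub_eq_zero] at h1
    exact h1.symm
  have hl : ∀ u g, χ u = 0 → u • f g = f g := by
    intro u g hu
    have h1 := hdf u g
    rw [hcar0' u g hu, zero_smul] at h1
    unfold dd at h1
    rw [hfU u hu, zero_add, sub_eq_zero] at h1
    have h2 : u * g = g * (g⁻¹ * u * g) := by group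
    have h3 : χ (g⁻¹ * u * g) = 0 := by
      rw [hχ, hχ, hu, chi_inv hχ]
      abel
    rw [h1, h2, hr _ _ h3]
  refine ⟨f σ, fun u hu => hl u σ hu, ?_⟩
  have hchp : ∀ n, n < p → (χ (σ ^ n)).val = n := by
    intro n hn
    rw [chi_pow hχ hσ]
    exact ZMod.val_cast_of_lt hn
  have hstep : ∀ n, n < p → f (σ ^ (n + 1)) =
      f (σ ^ n) + σ ^ n • f σ - (if n + 1 = p then p • β else 0) := by
    intro n hn
    have h1 := hdf (σ ^ n) σ
    have h2 : (χ σ).val = 1 := by
      have := hchp 1 (by omega)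
      rwa [pow_one] at this
    rw [carry_eq, hchp n hn, h2] at h1
    unfold dd at h1
    rw [← pow_succ] at h1
    split_ifs at h1 with h3
    · rw [if_pos (by omega), ← one_smul ℕ (p • β), ← h1]
      abel
    · rw [if_neg (by omega)]
      rw [zero_smul, sub_eq_zero] at h1
      rw [← h1]
      abel
  have hsum : ∀ n, n < p → f (σ ^ n) = ∑ l ∈ Finset.range n, σ ^ l • f σ := by
    intro n
    induction n with
    | zero =>
      intro _
      rw [pow_zero, Finset.range_zero, Finset.sum_empty, hfU _ (chi_one hχ)]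
    | succ n ih =>
      intro hn
      rw [hstep n (by omega), if_neg (by omega), Finset.sum_range_succ, ih (by omega), sub_zero]
  have hlast := hstep (p - 1) (by omega)
  have e : p - 1 + 1 = p := by omega
  rw [e, if_pos rfl, hsum (p - 1) (by omega), hfU (σ ^ p) (by
    rw [chi_pow hχ hσ, ZMod.natCast_self])] at hlast
  have h5 : ∑ l ∈ Finset.range p, σ ^ l • f σ
      = ∑ l ∈ Finset.range (p - 1), σ ^ l • f σ + σ ^ (p - 1) • f σ := by
    conv_lhs => rw [← e, Finset.sum_range_succ]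
  rw [h5]
  rw [eq_comm, sub_eq_zero] at hlast
  exact hlast

/-- the two orders of the factors -/
theorem cup_comm {χ χ' : Γ → ZMod p} (hχ : ∀ g k, χ (g * k) = χ g + χ k)
    (hχ' : ∀ g k, χ' (g * k) = χ' g + χ' k) (hχc : IsLocallyConstant χ)
    (hχc' : IsLocallyConstant χ')
    (h : ∃ ρ : Γ → ZMod p, IsLocallyConstant ρ ∧ ∀ g k, χ g * χ' k = ρ g + ρ k - ρ (g * k)) :
    ∃ ρ : Γ → ZMod p, IsLocallyConstant ρ ∧ ∀ g k, χ' g * χ k = ρ g + ρ k - ρ (g * k) := by
  obtain ⟨ρ, hρ, hρ2⟩ := h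
  refine ⟨fun g => - (χ g * χ' g) - ρ g, ?_, ?_⟩
  · exact ((hχc.comp₂ hχc' (· * ·)).comp₂ hρ fun a b => - a - b)
  · intro g k
    have := hρ2 g k
    change χ' g * χ k = (-(χ g * χ' g) - ρ g) + (-(χ k * χ' k) - ρ k)
      - (-(χ (g * k) * χ' (g * k)) - ρ (g * k))
    rw [hχ, hχ']
    linear_combination -this

end

end Pool.Agent.Helper95.EC
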