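import Mathlib

set_option autoImplicit false
set_option linter.unusedSectionVars false
set_option linter.unusedSimpArgs false

/-! Two-cocycles which are trivial on the kernel `U` of a character `χ` of order `p`: they are
cohomologous to `carry • b`. -/

namespace Pool.Agent.Helper95.EC

section

variable {Γ M : Type} [Group Γ] [AddCommGroup M] [DistribMulAction Γ M]

/-- the coboundary of a one-cochain -/
def dd (f : Γ → M) (g h : Γ) : M := f g + g • f h - f (g * h)

/-- two-cocycles -/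
def IsCoc (c : Γ → Γ → M) : Prop :=
  ∀ g h k : Γ, g • c h k - c (g * h) k + c g (h * k) - c g h = 0

theorem isCoc_dd (f : Γ → M) : IsCoc (dd f) := by
  intro g h k
  unfold dd
  simp only [smul_add, smul_sub, mul_smul, mul_assoc]
  abel

theorem IsCoc.add {c c' : Γ → Γ → M} (hc : IsCoc c) (hc' : IsCoc c') :
    IsCoc fun g h => c g h + c' g h := by
  intro g h k
  have h1 := hc g h k
  have h2 := hc' g h k
  simp only [smul_add]
  have : g • c h k + g • c' h k - (c (g * h) k + c' (g * h) k)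
      + (c g (h * k) + c' g (h * k)) - (c g h + c' g h)
      = (g • c h k - c (g * h) k + c g (h * k) - c g h)
        + (g • c' h k - c' (g * h) k + c' g (h * k) - c' g h) := by abel
  rw [this, h1, h2, add_zero]

theorem dd_add (f f' : Γ → M) (g h : Γ) : dd (fun x => f x + f' x) g h = dd f g h + dd f' g h := by
  unfold dd
  simp only [smul_add]
  abel

theorem dd_neg (f : Γ → M) (g h : Γ) : dd (fun x => - f x) g h = - dd f g h := by
  unfold dd
  simp only [smul_neg]
  abel

/-- carrying in the addition of the representatives `0, …, p - 1` -/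
def carry {p : ℕ} (χ : Γ → ZMod p) (g h : Γ) : ℕ := ((χ g).val + (χ h).val) / p

end

section

variable {Γ M : Type} [Group Γ] [TopologicalSpace Γ] [IsTopologicalGroup Γ]
  [AddCommGroup M] [DistribMulAction Γ M] {p : ℕ} {χ : Γ → ZMod p} {σ : Γ}

theorem lc_add {f f' : Γ → M} (hf : IsLocallyConstant f) (hf' : IsLocallyConstant f') :
    IsLocallyConstant fun g => f g + f' g :=
  hf.comp₂ hf' (· + ·)

theorem lc_stab {X : Type} {f : Γ → X} (hf : IsLocallyConstant f) :
    IsLocallyConstant (fun q : Γ × Γ => f (q.1 * q.2)) :=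
  hf.comp_continuous continuous_mul

/-- the action on a locally constant function: we need open stabilizers -/
theorem lc_smul (hM : ∀ x : M, IsOpen {g : Γ | g • x = x}) {f : Γ → M}
    (hf : IsLocallyConstant f) : IsLocallyConstant (fun q : Γ × Γ => q.1 • f q.2) := by
  rw [IsLocallyConstant.iff_exists_open]
  rintro ⟨g, h⟩
  obtain ⟨V, hV, hhV, hVf⟩ := (IsLocallyConstant.iff_exists_open f).1 hf h
  refine ⟨((fun k => g⁻¹ * k) ⁻¹' {k : Γ | k • f h = f h}) ×ˢ V,
    ((hM (f h)).preimage (continuous_const.mul continuous_id)).prod hV, ⟨?_, hhV⟩, ?_⟩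
  · change (g⁻¹ * g) • f h = f h
    rw [inv_mul_cancel, one_smul]
  · rintro ⟨g', h'⟩ ⟨h1, h2⟩
    have h3 : (g⁻¹ * g') • f h = f h := h1
    change g' • f h' = g • f h
    rw [hVf h' h2]
    have h4 : g' = g * (g⁻¹ * g') := by group
    conv_lhs => rw [h4, mul_smul, h3]

theorem lc_dd (hM : ∀ x : M, IsOpen {g : Γ | g • x = x}) {f : Γ → M}
    (hf : IsLocallyConstant f) : IsLocallyConstant (fun q : Γ × Γ => dd f q.1 q.2) := by
  unfold dd
  have h1 : IsLocallyConstant (fun q : Γ × Γ => f q.1) := hf.comp_continuous continuous_fst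
  have h2 := lc_smul hM hf
  have h3 := lc_stab hf
  exact (h1.comp₂ h2 (· + ·)).comp₂ h3 (· - ·)

/-- `σ^(-i) g`, an element of the kernel -/
def un (χ : Γ → ZMod p) (σ : Γ) (g : Γ) : Γ := (σ ^ (χ g).val)⁻¹ * g

theorem lc_pow (hχc : IsLocallyConstant χ) : IsLocallyConstant fun g => σ ^ (χ g).val :=
  hχc.comp fun i => σ ^ i.val

theorem cont_un (hχc : IsLocallyConstant χ) : Continuous (un χ σ) := by
  unfold un
  exact (lc_pow hχc).continuous.inv.mul continuous_id

variable [hp : Fact p.Prime]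

theorem chi_one (hχ : ∀ g h, χ (g * h) = χ g + χ h) : χ 1 = 0 := by
  have := hχ 1 1
  rw [mul_one] at this
  exact left_eq_add.1 this

theorem chi_inv (hχ : ∀ g h, χ (g * h) = χ g + χ h) (g : Γ) : χ g⁻¹ = - χ g := by
  have := hχ g g⁻¹
  rw [mul_inv_cancel, chi_one hχ] at this
  exact (neg_eq_of_add_eq_zero_right this.symm).symm

theorem chi_pow (hχ : ∀ g h, χ (g * h) = χ g + χ h) (hσ : χ σ = 1) (n : ℕ) :
    χ (σ ^ n) = n := by
  induction n with
  | zero => rw [pow_zero, chi_one hχ, Nat.cast_zero]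
  | succ n ih => rw [pow_succ, hχ, ih, hσ, Nat.cast_add, Nat.cast_one]

theorem chi_un (hχ : ∀ g h, χ (g * h) = χ g + χ h) (hσ : χ σ = 1) (g : Γ) :
    χ (un χ σ g) = 0 := by
  unfold un
  rw [hχ, chi_inv hχ, chi_pow hχ hσ, ZMod.natCast_zmod_val]
  exact neg_add_cancel _

theorem pow_un (g : Γ) : σ ^ (χ g).val * un χ σ g = g := by
  unfold un
  group

theorem un_ker {u : Γ} (hu : χ u = 0) : un χ σ u = u := by
  unfold un
  rw [hu, ZMod.val_zero, pow_zero, inv_one, one_mul]

/-- trivialization on `Γ × U` -/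
theorem stepA (hM : ∀ x : M, IsOpen {g : Γ | g • x = x})
    (hχ : ∀ g h, χ (g * h) = χ g + χ h) (hχc : IsLocallyConstant χ) (hσ : χ σ = 1)
    {c : Γ → Γ → M} (hc : IsCoc c) (hcl : IsLocallyConstant (fun q : Γ × Γ => c q.1 q.2))
    {ρ : Γ → M} (hρ : IsLocallyConstant ρ)
    (hcρ : ∀ u v, χ u = 0 → χ v = 0 → c u v = ρ u + u • ρ v - ρ (u * v)) :
    ∃ f : Γ → M, IsLocallyConstant f ∧ ∀ g u, χ u = 0 → c g u + dd f g u = 0 := by
  -- first step
  let f1 : Γ → M := fun g => - ρ (un χ σ g)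
  have hf1 : IsLocallyConstant f1 := (hρ.comp_continuous (cont_un hχc)).comp (fun x => -x)
  let c1 : Γ → Γ → M := fun g h => c g h + dd f1 g h
  have hc1 : IsCoc c1 := hc.add (isCoc_dd f1)
  have hc1l : IsLocallyConstant (fun q : Γ × Γ => c1 q.1 q.2) :=
    hcl.comp₂ (lc_dd hM hf1) (· + ·)
  have hc1U : ∀ u v, χ u = 0 → χ v = 0 → c1 u v = 0 := by
    intro u v hu hv
    have huv : χ (u * v) = 0 := by rw [hχ, hu, hv, add_zero]
    simp only [c1, f1, dd, un_ker hu, un_ker hv, un_ker huv, hcρ u v hu hv, smul_neg]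
    abel
  have h11 : c1 1 1 = 0 := hc1U 1 1 (chi_one hχ) (chi_one hχ)
  have h1h : ∀ h, c1 1 h = 0 := by
    intro h
    have := hc1 1 1 h
    simp only [one_smul, one_mul, mul_one, h11] at this
    rw [← this]
    abel
  have hg1 : ∀ g, c1 g 1 = 0 := by
    intro g
    have := hc1 g 1 1
    simp only [one_mul, mul_one, h11, smul_zero] at this
    rw [← neg_eq_zero, ← this]
    abel
  -- second step
  let f2 : Γ → M := fun g => c1 (σ ^ (χ g).val) (un χ σ g)
  have hf2 : IsLocallyConstant f2 :=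
    hc1l.comp_continuous ((lc_pow hχc).continuous.prodMk (cont_un hχc))
  have hval : ∀ g u, χ u = 0 → χ (g * u) = χ g := by
    intro g u hu
    rw [hχ, hu, add_zero]
  have hf2U : ∀ u, χ u = 0 → f2 u = 0 := by
    intro u hu
    simp only [f2, un_ker hu, hu, ZMod.val_zero, pow_zero]
    exact h1h u
  refine ⟨fun g => f1 g + f2 g, lc_add hf1 hf2, ?_⟩
  have key1 : ∀ (i : ZMod p) (u : Γ), χ u = 0 →
      c1 (σ ^ i.val) u + dd f2 (σ ^ i.val) u = 0 := by
    intro i u hu
    have h1 : χ (σ ^ i.val) = i := by rw [chi_pow hχ hσ, ZMod.natCast_zmod_val]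
    have h2 : un χ σ (σ ^ i.val) = 1 := by
      unfold un
      rw [h1]
      group
    have h3 : χ (σ ^ i.val * u) = i := by rw [hval _ _ hu, h1]
    have h4 : un χ σ (σ ^ i.val * u) = u := by
      unfold un
      rw [h3]
      group
    have h5 : f2 (σ ^ i.val) = 0 := by
      simp only [f2, h2]
      exact hg1 _
    have h6 : f2 (σ ^ i.val * u) = c1 (σ ^ i.val) u := by
      simp only [f2, h3, h4]
    unfold dd
    rw [h5, h6, hf2U u hu, smul_zero]
    abel
  have hc2 : IsCoc fun g h => c1 g h + dd f2 g h := hc1.add (isCoc_dd f2)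
  intro g u hu
  rw [dd_add, ← add_assoc]
  change c1 g u + dd f2 g u = 0
  have h7 := hc2 (σ ^ (χ g).val) (un χ σ g) u
  have h8 : c1 (un χ σ g) u + dd f2 (un χ σ g) u = 0 := by
    have hu' := chi_un hχ hσ g
    unfold dd
    rw [hc1U _ _ hu' hu, hf2U _ hu', hf2U _ hu, smul_zero, hf2U]
    · abel
    · rw [hval _ _ hu, hu']
  simp only [pow_un] at h7
  rw [h8, smul_zero, key1 (χ g) _ (chi_un hχ hσ g),
    key1 (χ g) (un χ σ g * u) (by rw [hval _ _ hu, chi_un hχ hσ g])] at h7
  rw [← neg_eq_zero, ← h7]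
  abel

/-- trivialization on `Γ × U` and `U × Γ` -/
theorem stepB (hχ : ∀ g h, χ (g * h) = χ g + χ h) (hχc : IsLocallyConstant χ) (hσ : χ σ = 1)
    (hH : ∀ f : Γ → M, IsLocallyConstant f →
      (∀ u v, χ u = 0 → χ v = 0 → f (u * v) = f u + u • f v) →
      ∃ θ : M, ∀ u, χ u = 0 → f u = u • θ - θ)
    {c : Γ → Γ → M} (hc : IsCoc c) (hcl : IsLocallyConstant (fun q : Γ × Γ => c q.1 q.2))
    (hcU : ∀ g u, χ u = 0 → c g u = 0) :
    ∃ f : Γ → M, IsLocallyConstant f ∧
      (∀ g u, χ u = 0 → c g u + dd f g u = 0) ∧ ∀ u g, χ u = 0 → c u g + dd f u g = 0 := by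
  have hinv : ∀ g h u, χ u = 0 → c g (h * u) = c g h := by
    intro g h u hu
    have := hc g h u
    rw [hcU h u hu, hcU (g * h) u hu, smul_zero] at this
    rw [← sub_eq_zero, ← this]
    abel
  have hex : ∀ i : ZMod p, ∃ θ : M, (i = 0 → θ = 0) ∧
      ∀ u, χ u = 0 → c u (σ ^ i.val) = u • θ - θ := by
    intro i
    by_cases hi : i = 0
    · refine ⟨0, fun _ => rfl, ?_⟩
      intro u _
      rw [hi, ZMod.val_zero, pow_zero, hcU u 1 (chi_one hχ), smul_zero, sub_zero]
    · obtain ⟨θ, hθ⟩ := hH (fun u => c u (σ ^ i.val))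
        (hcl.comp_continuous (continuous_id.prodMk continuous_const)) (by
          intro u v hu hv
          have h1 := hc u v (σ ^ i.val)
          have h2 : v * σ ^ i.val = σ ^ i.val * ((σ ^ i.val)⁻¹ * v * σ ^ i.val) := by group
          have h3 : χ ((σ ^ i.val)⁻¹ * v * σ ^ i.val) = 0 := by
            rw [hχ, hχ, hv, chi_inv hχ]
            abel
          rw [h2, hinv _ _ _ h3, hcU u v hv] at h1
          rw [← sub_eq_zero, ← neg_eq_zero, ← h1]
          abel)
      exact ⟨θ, fun h => absurd h hi, hθ⟩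
  choose θ hθ0 hθ using hex
  refine ⟨fun g => - θ (χ g), hχc.comp (fun i => - θ i), ?_, ?_⟩
  · intro g u hu
    unfold dd
    have h1 : χ (g * u) = χ g := by rw [hχ, hu, add_zero]
    simp only [hcU g u hu, h1, hu, hθ0 0 rfl, smul_zero, neg_zero]
    abel
  · intro u g hu
    unfold dd
    have h1 : χ (u * g) = χ g := by rw [hχ, hu, zero_add]
    have h2 : c u g = u • θ (χ g) - θ (χ g) := by
      rw [← hθ (χ g) u hu]
      conv_lhs => rw [← pow_un (χ := χ) (σ := σ) g]
      exact hinv _ _ _ (chi_un hχ hσ g)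
    simp only [h2, h1, hu, hθ0 0 rfl, smul_neg, neg_zero]
    abel

omit [TopologicalSpace Γ] [IsTopologicalGroup Γ] in
/-- the value of the carry -/
theorem carry_eq (g h : Γ) :
    carry χ g h = if p ≤ (χ g).val + (χ h).val then 1 else 0 := by
  have h1 := ZMod.val_lt (χ g)
  have h2 := ZMod.val_lt (χ h)
  unfold carry
  split_ifs with h3
  · rw [Nat.div_eq_of_lt_le] <;> omega
  · exact Nat.div_eq_of_lt (by omega)

/-- cocycles inflated from the cyclic group -/
theorem stepC (hχ : ∀ g h, χ (g * h) = χ g + χ h) (hχc : IsLocallyConstant χ) (hσ : χ σ = 1)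
    {c : Γ → Γ → M} (hc : IsCoc c)
    (hcU : ∀ g u, χ u = 0 → c g u = 0) (hcU' : ∀ u g, χ u = 0 → c u g = 0) :
    ∃ (b : M) (f : Γ → M), (∀ g : Γ, g • b = b) ∧ IsLocallyConstant f ∧
      ∀ g h, c g h = carry χ g h • b + dd f g h := by
  have h2p := hp.out.two_le
  have hinv1 : ∀ g h u, χ u = 0 → c g (h * u) = c g h := by
    intro g h u hu
    have := hc g h u
    rw [hcU h u hu, hcU (g * h) u hu, smul_zero] at this
    rw [← sub_eq_zero, ← this]
    abel
  have hinv2 : ∀ g h u, χ u = 0 → c (g * u) h = c g h := by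
    intro g h u hu
    have h1 := hc g u h
    have h2 : u * h = h * (h⁻¹ * u * h) := by group
    have h3 : χ (h⁻¹ * u * h) = 0 := by
      rw [hχ, hχ, hu, chi_inv hχ]
      abel
    rw [hcU' u h hu, hcU g u hu, h2, hinv1 _ _ _ h3, smul_zero] at h1
    rw [← sub_eq_zero, ← neg_eq_zero, ← h1]
    abel
  have hinv3 : ∀ u g h, χ u = 0 → u • c g h = c g h := by
    intro u g h hu
    have h1 := hc u g h
    have h2 : u * g = g * (g⁻¹ * u * g) := by group
    have h3 : χ (g⁻¹ * u * g) = 0 := by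
      rw [hχ, hχ, hu, chi_inv hχ]
      abel
    rw [hcU' u g hu, hcU' u (g * h) hu, h2, hinv2 _ _ _ h3] at h1
    rw [← sub_eq_zero, ← h1]
    abel
  -- `c` depends only on the classes
  have hcls : ∀ g h, c g h = c (σ ^ (χ g).val) (σ ^ (χ h).val) := by
    intro g h
    conv_lhs => rw [← pow_un (χ := χ) (σ := σ) g, ← pow_un (χ := χ) (σ := σ) h]
    rw [hinv1 _ _ _ (chi_un hχ hσ h), hinv2 _ _ _ (chi_un hχ hσ g)]
  have hsm : ∀ (g : Γ) (x : M), (∀ u, χ u = 0 → u • x = x) → g • x = σ ^ (χ g).val • x := by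
    intro g x hx
    conv_lhs => rw [← pow_un (χ := χ) (σ := σ) g, mul_smul, hx _ (chi_un hχ hσ g)]
  let s : ℕ → M := fun n => ∑ l ∈ Finset.range n, c (σ ^ l) σ
  have hs : ∀ n u, χ u = 0 → u • s n = s n := by
    intro n u hu
    simp only [s]
    rw [Finset.smul_sum]
    exact Finset.sum_congr rfl fun l _ => hinv3 u _ _ hu
  have hp0 : χ (σ ^ p) = 0 := by rw [chi_pow hχ hσ, ZMod.natCast_self]
  have hchp : ∀ n, n < p → (χ (σ ^ n)).val = n := by
    intro n hn
    rw [chi_pow hχ hσ]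
    exact ZMod.val_cast_of_lt hn
  -- the corrected cocycle
  let f : Γ → M := fun g => s (χ g).val
  let c4 : Γ → Γ → M := fun g h => c g h + dd f g h
  have hc4 : IsCoc c4 := hc.add (isCoc_dd f)
  have hfU : ∀ g u, χ u = 0 → u • f g = f g := fun g u hu => hs _ u hu
  have hfi : ∀ g h, χ g = χ h → f g = f h := by
    intro g h hgh
    simp only [f, hgh]
  have hc4cls : ∀ g h g' h', χ g = χ g' → χ h = χ h' → c4 g h = c4 g' h' := by
    intro g h g' h' hg hh
    simp only [c4, dd]
    rw [hcls g h, hcls g' h', hg, hh, hfi g g' hg, hfi (g * h) (g' * h') (by rw [hχ, hχ, hg, hh]),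
      hsm g (f h) (fun u hu => hfU h u hu), hsm g' (f h') (fun u hu => hfU h' u hu), hg,
      hfi h h' hh]
  have hf0 : ∀ u, χ u = 0 → f u = 0 := by
    intro u hu
    simp only [f, hu, ZMod.val_zero, s, Finset.range_zero, Finset.sum_empty]
  have hfσ : f σ = 0 := by
    have h1 : (χ σ).val = 1 := by
      have := hchp 1 (by omega)
      rwa [pow_one] at this
    simp only [f, h1, s, Finset.sum_range_one, pow_zero]
    exact hcU' 1 σ (chi_one hχ)
  have hc4U : ∀ g u, χ u = 0 → c4 g u = 0 := by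
    intro g u hu
    simp only [c4, dd]
    rw [hcU g u hu, hf0 u hu, smul_zero, hfi (g * u) g (by rw [hχ, hu, add_zero])]
    abel
  have hc4U' : ∀ u g, χ u = 0 → c4 u g = 0 := by
    intro u g hu
    simp only [c4, dd]
    rw [hcU' u g hu, hf0 u hu, hfU g u hu, hfi (u * g) g (by rw [hχ, hu, zero_add])]
    abel
  have hstep : ∀ n, n < p → c4 (σ ^ n) σ = if n + 1 = p then s p else 0 := by
    intro n hn
    simp only [c4, dd]
    rw [hfσ, smul_zero, ← pow_succ]
    have h1 : f (σ ^ n) = s n := by simp only [f, hchp n hn]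
    rw [h1]
    split_ifs with h2
    · rw [h2, hf0 _ hp0, ← h2]
      simp only [s]
      rw [Finset.sum_range_succ]
      abel
    · have h3 : f (σ ^ (n + 1)) = s (n + 1) := by simp only [f, hchp (n + 1) (by omega)]
      rw [h3]
      simp only [s]
      rw [Finset.sum_range_succ]
      abel
  have hmod : ∀ n, p ≤ n → n < 2 * p → ∀ h, c4 (σ ^ n) h = c4 (σ ^ (n - p)) h := by
    intro n h1 h2 h
    apply hc4cls _ _ _ _ _ rfl
    rw [chi_pow hχ hσ, chi_pow hχ hσ, Nat.cast_sub h1, ZMod.natCast_self, sub_zero]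
  have hall : ∀ i, i < p → ∀ j, j < p →
      c4 (σ ^ i) (σ ^ j) = if p ≤ i + j then s p else 0 := by
    intro i hi j
    induction j with
    | zero =>
      intro _
      rw [pow_zero, hc4U _ _ (chi_one hχ), if_neg (by omega)]
    | succ j ih =>
      intro hj
      have h1 := hc4 (σ ^ i) (σ ^ j) σ
      rw [hstep j (by omega), if_neg (by omega), smul_zero, ← pow_add, ← pow_succ,
        ih (by omega)] at h1
      by_cases h2 : i + j + 1 = p
      · rw [hstep (i + j) (by omega), if_pos h2, if_neg (by omega)] at h1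
        rw [if_pos (by omega)]
        rw [← sub_eq_zero, ← h1]
        abel
      · by_cases h3 : i + j < p
        · rw [hstep (i + j) h3, if_neg h2, if_neg (by omega)] at h1
          rw [if_neg (by omega)]
          simpa using h1
        · rw [hmod (i + j) (by omega) (by omega), hstep (i + j - p) (by omega), if_neg (by omega),
            if_pos (by omega)] at h1
          rw [if_pos (by omega)]
          rw [← sub_eq_zero, ← h1]
          abel
  have hσp : σ • s p = s p := by
    have h1 := hc4 σ (σ ^ (p - 1)) σ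
    have e1 : σ * σ ^ (p - 1) = σ ^ p := by
      rw [← pow_succ']
      congr 1
      omega
    have e2 : σ ^ (p - 1) * σ = σ ^ p := by
      rw [← pow_succ]
      congr 1
      omega
    rw [e1, e2, hc4U' _ _ hp0, hc4U _ _ hp0, hstep (p - 1) (by omega), if_pos (by omega)] at h1
    have h2 := hall 1 (by omega) (p - 1) (by omega)
    rw [pow_one, if_pos (by omega)] at h2
    rw [h2] at h1
    rw [← sub_eq_zero, ← h1]
    abel
  have hpow : ∀ n : ℕ, σ ^ n • s p = s p := by
    intro n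
    induction n with
    | zero => rw [pow_zero, one_smul]
    | succ n ih => rw [pow_succ, mul_smul, hσp, ih]
  refine ⟨s p, fun g => - f g, ?_, (hχc.comp fun i => - s i.val), ?_⟩
  · intro g
    rw [hsm g _ (fun u hu => hs p u hu), hpow]
  · intro g h
    rw [dd_neg]
    have h1 : c4 g h = if p ≤ (χ g).val + (χ h).val then s p else 0 := by
      rw [← hall _ (ZMod.val_lt _) _ (ZMod.val_lt _)]
      apply hc4cls
      · rw [chi_pow hχ hσ, ZMod.natCast_zmod_val]
      · rw [chi_pow hχ hσ, ZMod.natCast_zmod_val]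
    have h2 : carry χ g h • s p = if p ≤ (χ g).val + (χ h).val then s p else 0 := by
      rw [carry_eq]
      split_ifs
      · rw [one_smul]
      · rw [zero_smul]
    rw [h2, ← h1]
    simp only [c4]
    abel

/-- **Inflation from a cyclic group.** -/
theorem cyc (hM : ∀ x : M, IsOpen {g : Γ | g • x = x})
    (hχ : ∀ g h, χ (g * h) = χ g + χ h) (hχc : IsLocallyConstant χ) (hσ : χ σ = 1)
    (hH : ∀ f : Γ → M, IsLocallyConstant f →
      (∀ u v, χ u = 0 → χ v = 0 → f (u * v) = f u + u • f v) →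
      ∃ θ : M, ∀ u, χ u = 0 → f u = u • θ - θ)
    {c : Γ → Γ → M} (hc : IsCoc c) (hcl : IsLocallyConstant (fun q : Γ × Γ => c q.1 q.2))
    {ρ : Γ → M} (hρ : IsLocallyConstant ρ)
    (hcρ : ∀ u v, χ u = 0 → χ v = 0 → c u v = ρ u + u • ρ v - ρ (u * v)) :
    ∃ (b : M) (f : Γ → M), (∀ g : Γ, g • b = b) ∧ IsLocallyConstant f ∧
      ∀ g h, c g h = carry χ g h • b + dd f g h := by
  obtain ⟨f1, hf1, h1⟩ := stepA hM hχ hχc hσ hc hcl hρ hcρ
  obtain ⟨f2, hf2, h2, h3⟩ := stepB (c := fun g h => c g h + dd f1 g h) hχ hχc hσ hH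
    (hc.add (isCoc_dd f1)) (hcl.comp₂ (lc_dd hM hf1) (· + ·)) h1
  obtain ⟨b, f3, hb, hf3, h4⟩ := stepC (c := fun g h => c g h + dd f1 g h + dd f2 g h) hχ hχc hσ
    ((hc.add (isCoc_dd f1)).add (isCoc_dd f2)) h2 h3
  refine ⟨b, fun g => f3 g + - (f1 g + f2 g), hb,
    lc_add hf3 ((lc_add hf1 hf2).comp fun x => -x), ?_⟩
  intro g h
  rw [dd_add, dd_neg, dd_add]
  have := h4 g h
  have e : c g h = (c g h + dd f1 g h + dd f2 g h) - (dd f1 g h + dd f2 g h) := by abel
  rw [e, this]
  abel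

end

end Pool.Agent.Helper95.EC
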