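import Pool.Agent.Helper95.EC.H90
import Pool.Agent.Helper95.EC.Cyc

set_option autoImplicit false
set_option linter.unusedSectionVars false
set_option linter.unusedSimpArgs false

/-! Kummer theory and two-cocycles for a compact group acting on a field. -/

namespace Pool.Agent.Helper95.EC

/-- the multiplicative group of a field, written additively -/
def KU (K : Type) [Field K] : Type := Additive Kˣ

section

variable {K : Type} [Field K]

instance instKU : AddCommGroup (KU K) := inferInstanceAs (AddCommGroup (Additive Kˣ))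

/-- the underlying element of the field -/
def vl (x : KU K) : K := ((Additive.toMul (α := Kˣ) x : Kˣ) : K)

/-- the element of the multiplicative group -/
def ku (x : K) (hx : x ≠ 0) : KU K := Additive.ofMul (Units.mk0 x hx)

theorem vl_ku (x : K) (hx : x ≠ 0) : vl (ku x hx) = x := rfl

theorem vl_ne (x : KU K) : vl x ≠ 0 := (Additive.toMul (α := Kˣ) x).ne_zero

theorem vl_inj {x y : KU K} (h : vl x = vl y) : x = y := by
  have : (Additive.toMul (α := Kˣ) x) = (Additive.toMul (α := Kˣ) y) := Units.ext h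
  exact Additive.toMul.injective this

theorem vl_add (x y : KU K) : vl (x + y) = vl x * vl y := rfl

theorem vl_zero : vl (0 : KU K) = 1 := rfl

theorem vl_neg (x : KU K) : vl (-x) = (vl x)⁻¹ := by
  have h := vl_add x (-x)
  rw [add_neg_cancel, vl_zero] at h
  exact eq_inv_of_mul_eq_one_right h.symm

theorem vl_sub (x y : KU K) : vl (x - y) = vl x / vl y := by
  rw [sub_eq_add_neg, vl_add, vl_neg, div_eq_mul_inv]

theorem vl_nsmul (n : ℕ) (x : KU K) : vl (n • x) = vl x ^ n := by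
  induction n with
  | zero => rw [zero_smul, vl_zero, pow_zero]
  | succ n ih => rw [succ_nsmul, vl_add, ih, pow_succ]

theorem vl_sum {ι : Type} (s : Finset ι) (f : ι → KU K) :
    vl (∑ i ∈ s, f i) = ∏ i ∈ s, vl (f i) := by
  classical
  induction s using Finset.induction_on with
  | empty => rw [Finset.sum_empty, Finset.prod_empty, vl_zero]
  | insert a s ha ih => rw [Finset.sum_insert ha, Finset.prod_insert ha, vl_add, ih]

end

section

variable {Γ K : Type} [Group Γ] [Field K] [MulSemiringAction Γ K]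

theorem smul_ne {g : Γ} {x : K} (hx : x ≠ 0) : g • x ≠ 0 := by
  intro h
  apply hx
  rw [← inv_smul_smul g x, h, smul_zero]

instance instKUact : DistribMulAction Γ (KU K) where
  smul g x := ku (g • vl x) (smul_ne (vl_ne x))
  one_smul x := vl_inj (by
    change (1 : Γ) • vl x = vl x
    rw [one_smul])
  mul_smul g h x := vl_inj (by
    change (g * h) • vl x = g • h • vl x
    rw [mul_smul])
  smul_zero g := vl_inj (by
    change g • vl (0 : KU K) = vl 0
    rw [vl_zero, smul_one])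
  smul_add g x y := vl_inj (by
    change g • vl (x + y) = (g • vl x) * (g • vl y)
    rw [vl_add, smul_mul'])

theorem vl_smul (g : Γ) (x : KU K) : vl (g • x) = g • vl x := rfl

theorem fix_iff {g : Γ} {x : KU K} : g • x = x ↔ g • vl x = vl x := by
  constructor
  · intro h
    rw [← vl_smul, h]
  · intro h
    exact vl_inj h

end

section

variable {Γ K : Type} [Group Γ] [TopologicalSpace Γ] [Field K] [MulSemiringAction Γ K]
  {p : ℕ} {ζ : K}

theorem Gal.stabKU (h : Gal Γ K) (x : KU K) : IsOpen {g : Γ | g • x = x} := by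
  have h1 : {g : Γ | g • x = x} = {g : Γ | g • vl x = vl x} := by
    ext g
    exact fix_iff
  rw [h1]
  exact h.stab _

/-- Hilbert 90 in additive notation -/
theorem h90' (h : Gal Γ K) (f : Γ → KU K) (hf : IsLocallyConstant f)
    (hc : ∀ g k : Γ, f (g * k) = f g + g • f k) : ∃ θ : KU K, ∀ g : Γ, f g = g • θ - θ := by
  obtain ⟨b, hb0, hb⟩ := h90 h (fun g => vl (f g)) (hf.comp vl) (fun g => vl_ne _) (by
    intro g k
    rw [hc, vl_add, vl_smul])
  refine ⟨- ku b hb0, fun g => ?_⟩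
  apply vl_inj
  rw [smul_neg, vl_sub, vl_neg, vl_neg, vl_smul, vl_ku]
  have h1 := hb g
  have h2 : g • b ≠ 0 := smul_ne hb0
  field_simp
  exact h1

/-- Hilbert 90 for a closed subgroup, functions on the whole group -/
theorem h90U (h : Gal Γ K) (U : Subgroup Γ) (hU : IsClosed (U : Set Γ)) (f : Γ → KU K)
    (hf : IsLocallyConstant f) (hc : ∀ g ∈ U, ∀ k ∈ U, f (g * k) = f g + g • f k) :
    ∃ θ : KU K, ∀ g ∈ U, f g = g • θ - θ := by
  obtain ⟨θ, hθ⟩ := h90' (h.sub U hU) (fun g => f g) (hf.comp_continuous continuous_subtype_val)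
    (fun g k => hc g g.2 k k.2)
  exact ⟨θ, fun g hg => hθ ⟨g, hg⟩⟩

variable [hp : Fact p.Prime]

theorem zp_add (hζ : IsPrimitiveRoot ζ p) (i j : ZMod p) :
    ζ ^ (i + j).val = ζ ^ i.val * ζ ^ j.val := by
  rw [ZMod.val_add, ← pow_add]
  conv_rhs => rw [← Nat.mod_add_div (i.val + j.val) p, pow_add, pow_mul, hζ.pow_eq_one, one_pow,
    mul_one]

/-- the embedding of `ℤ/p` by a root of unity -/
def zt (hζ : IsPrimitiveRoot ζ p) : ZMod p →+ KU K :=
  AddMonoidHom.mk' (fun i => ku (ζ ^ i.val) (pow_ne_zero _ (hζ.ne_zero hp.out.ne_zero))) (by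
    intro i j
    apply vl_inj
    rw [vl_add, vl_ku, vl_ku, vl_ku]
    exact zp_add hζ i j)

theorem vl_zt (hζ : IsPrimitiveRoot ζ p) (i : ZMod p) : vl (zt hζ i) = ζ ^ i.val := rfl

theorem zt_inj (hζ : IsPrimitiveRoot ζ p) {i j : ZMod p} (h : zt hζ i = zt hζ j) : i = j := by
  have h1 : ζ ^ i.val = ζ ^ j.val := by rw [← vl_zt hζ, ← vl_zt hζ, h]
  exact ZMod.val_injective p (hζ.pow_inj (ZMod.val_lt i) (ZMod.val_lt j) h1)

theorem zt_fix (hζ : IsPrimitiveRoot ζ p) (hζΓ : ∀ g : Γ, g • ζ = ζ) (g : Γ) (i : ZMod p) :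
    g • zt hζ i = zt hζ i := by
  apply vl_inj
  rw [vl_smul, vl_zt, smul_pow', hζΓ]

theorem exists_log (hζ : IsPrimitiveRoot ζ p) {x : KU K} (hx : p • x = 0) :
    ∃ i : ZMod p, zt hζ i = x := by
  have h1 : vl x ^ p = 1 := by rw [← vl_nsmul, hx, vl_zero]
  have := NeZero.mk hp.out.ne_zero
  obtain ⟨i, hi, hi'⟩ := hζ.eq_pow_of_pow_eq_one h1
  refine ⟨(i : ZMod p), ?_⟩
  apply vl_inj
  rw [vl_zt, ZMod.val_cast_of_lt hi, hi']

theorem p_zt (hζ : IsPrimitiveRoot ζ p) (i : ZMod p) : p • zt hζ i = 0 := by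
  rw [← map_nsmul]
  have : p • i = 0 := by rw [nsmul_eq_mul, ZMod.natCast_self, zero_mul]
  rw [this, map_zero]

theorem exists_root (hroot : ∀ x : K, ∃ y : K, y ^ p = x) (b : KU K) : ∃ β : KU K, p • β = b := by
  obtain ⟨y, hy⟩ := hroot (vl b)
  have hy0 : y ≠ 0 := by
    rintro rfl
    rw [zero_pow hp.out.ne_zero] at hy
    exact vl_ne b hy.symm
  exact ⟨ku y hy0, vl_inj (by rw [vl_nsmul, vl_ku, hy])⟩

/-- `χ` is the Kummer character of `b` -/
def IsKum (hζ : IsPrimitiveRoot ζ p) (χ : Γ → ZMod p) (b : KU K) : Prop :=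
  ∃ β : KU K, p • β = b ∧ ∀ g : Γ, g • β = β + zt hζ (χ g)

/-- the Kummer character of a fixed element -/
theorem exists_kum (h : Gal Γ K) (hζ : IsPrimitiveRoot ζ p) (hζΓ : ∀ g : Γ, g • ζ = ζ)
    {b β : KU K} (hb : ∀ g : Γ, g • b = b) (hβ : p • β = b) :
    ∃ χ : Γ → ZMod p, (∀ g k, χ (g * k) = χ g + χ k) ∧ IsLocallyConstant χ ∧
      ∀ g : Γ, g • β = β + zt hζ (χ g) := by
  have h1 : ∀ g : Γ, ∃ i : ZMod p, zt hζ i = g • β - β := by
    intro g
    apply exists_log
    rw [smul_sub, smul_comm, hβ, hb, sub_self]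
  choose χ hχ using h1
  have h2 : ∀ g : Γ, g • β = β + zt hζ (χ g) := by
    intro g
    rw [hχ]
    abel
  refine ⟨χ, ?_, ?_, h2⟩
  · intro g k
    apply zt_inj hζ
    rw [map_add, hχ, mul_smul, h2 k, smul_add, h2 g, zt_fix hζ hζΓ]
    abel
  · have := h.top
    rw [IsLocallyConstant.iff_exists_open]
    intro g
    refine ⟨(fun k => g⁻¹ * k) ⁻¹' {k : Γ | k • β = β},
      (h.stabKU β).preimage (continuous_const.mul continuous_id), ?_, ?_⟩
    · change (g⁻¹ * g) • β = β
      rw [inv_mul_cancel, one_smul]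
    · intro k hk
      have h3 : (g⁻¹ * k) • β = β := hk
      have h4 : k • β = g • β := by
        conv_rhs => rw [← h3, ← mul_smul, mul_inv_cancel_left]
      apply zt_inj hζ
      rw [hχ, hχ, h4]

/-- every character is a Kummer character -/
theorem kum_surj (h : Gal Γ K) (hζ : IsPrimitiveRoot ζ p) (hζΓ : ∀ g : Γ, g • ζ = ζ)
    {χ : Γ → ZMod p} (hχ : ∀ g k, χ (g * k) = χ g + χ k) (hχc : IsLocallyConstant χ) :
    ∃ β : KU K, (∀ g : Γ, g • β = β + zt hζ (χ g)) ∧ ∀ g : Γ, g • (p • β) = p • β := by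
  obtain ⟨θ, hθ⟩ := h90' h (fun g => zt hζ (χ g)) (hχc.comp _) (by
    intro g k
    rw [hχ, map_add, zt_fix hζ hζΓ])
  have h1 : ∀ g : Γ, g • θ = θ + zt hζ (χ g) := by
    intro g
    have := hθ g
    rw [this]
    abel
  refine ⟨θ, h1, ?_⟩
  intro g
  rw [smul_comm, h1, smul_add, p_zt, add_zero]

/-- `H²(Γ, ℤ/p) → H²(Γ, K*)` is injective -/
theorem inj2 (h : Gal Γ K) (hζ : IsPrimitiveRoot ζ p) (hζΓ : ∀ g : Γ, g • ζ = ζ)
    (hroot : ∀ x : K, ∃ y : K, y ^ p = x) {c : Γ → Γ → ZMod p} {f : Γ → KU K}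
    (hf : IsLocallyConstant f) (hc : ∀ g k, zt hζ (c g k) = dd f g k) :
    ∃ ρ : Γ → ZMod p, IsLocallyConstant ρ ∧ ∀ g k, c g k = ρ g + ρ k - ρ (g * k) := by
  obtain ⟨b, hb⟩ := h90' h (fun g => p • f g) (hf.comp _) (by
    intro g k
    have h1 := hc g k
    have h2 : p • dd f g k = 0 := by rw [← h1, p_zt]
    unfold dd at h2
    rw [smul_sub, smul_add, smul_comm p g] at h2
    rw [sub_eq_zero] at h2
    exact h2.symm)
  obtain ⟨w, hw⟩ := exists_root hroot b
  have h1 : ∀ g, ∃ i : ZMod p, zt hζ i = f g - (g • w - w) := by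
    intro g
    apply exists_log
    have := hb g
    rw [smul_sub, this, smul_sub, smul_comm p g, hw, sub_self]
  choose ρ hρ using h1
  refine ⟨ρ, ?_, ?_⟩
  · have h2 : IsLocallyConstant fun g : Γ => f g - (g • w - w) := by
      have h3 : IsLocallyConstant fun g : Γ => g • w := by
        have := h.top
        rw [IsLocallyConstant.iff_exists_open]
        intro g
        refine ⟨(fun k => g⁻¹ * k) ⁻¹' {k : Γ | k • w = w},
          (h.stabKU w).preimage (continuous_const.mul continuous_id), ?_, ?_⟩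
        · change (g⁻¹ * g) • w = w
          rw [inv_mul_cancel, one_smul]
        · intro k hk
          have h3 : (g⁻¹ * k) • w = w := hk
          conv_rhs => rw [← h3, ← mul_smul, mul_inv_cancel_left]
      exact hf.comp₂ (h3.comp fun x => x - w) (· - ·)
    rw [IsLocallyConstant.iff_exists_open] at h2 ⊢
    intro g
    obtain ⟨V, hV, hg, hV'⟩ := h2 g
    refine ⟨V, hV, hg, fun k hk => ?_⟩
    apply zt_inj hζ
    rw [hρ, hρ, hV' k hk]
  · intro g k
    apply zt_inj hζ
    rw [hc, map_sub, map_add, hρ, hρ, hρ]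
    have h3 : g • f k = g • (zt hζ (ρ k) + (k • w - w)) := by
      rw [hρ]
      congr 1
      abel
    unfold dd
    rw [h3, smul_add, zt_fix hζ hζΓ, smul_sub, hρ, mul_smul]
    abel

/-- the carry cocycle and the cup product -/
theorem carry_cup (hζ : IsPrimitiveRoot ζ p) {χ χb : Γ → ZMod p}
    (hχ : ∀ g k, χ (g * k) = χ g + χ k) {β : KU K}
    (hβ : ∀ g : Γ, g • β = β + zt hζ (χb g)) (g k : Γ) :
    zt hζ (χb g * χ k) + carry χ g k • (p • β) = dd (fun g => (χ g).val • β) g k := by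
  unfold dd
  have h1 : g • ((χ k).val • β) = (χ k).val • β + zt hζ (χb g * χ k) := by
    rw [smul_comm, hβ, smul_add, ← map_nsmul]
    congr 2
    rw [nsmul_eq_mul, ZMod.natCast_zmod_val, mul_comm]
  have h2 : (χ g).val + (χ k).val = (χ (g * k)).val + p * carry χ g k := by
    rw [hχ, ZMod.val_add]
    unfold carry
    exact (Nat.mod_add_div _ _).symm
  have h3 : (χ g).val • β + (χ k).val • β = (χ (g * k)).val • β + carry χ g k • (p • β) := by
    rw [← add_smul, h2, add_smul, mul_comm, mul_smul]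
  rw [h1]
  have h4 : (χ g).val • β + ((χ k).val • β + zt hζ (χb g * χ k)) - (χ (g * k)).val • β
      = ((χ g).val • β + (χ k).val • β) - (χ (g * k)).val • β + zt hζ (χb g * χ k) := by abel
  rw [h4, h3]
  abel

end

end Pool.Agent.Helper95.EC
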