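import Pool.Agent.Helper95.EC.Chi
import Pool.Agent.ETC.Base
import Pool.Graph.R_seed8.Y349.EP.Symm

set_option autoImplicit false
set_option linter.unusedSectionVars false

/-! NORMCUP: norms and cup products. -/

namespace Pool.Agent.Helper95.EC

open Pool.Agent.ETC (PCl Nm IsChi Glo LocZ)
open Pool.Agent.Helper59.EA (CobOn Cob)
open Pool.Agent.Y920.EP (nmG)
open Polynomial

/-! ### the split algebra -/

section split

variable {F : Type} [Field F] {p : ℕ} [hp : Fact p.Prime]

/-- every unit is a norm from `F[X]/(X^p - 1)` -/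
theorem nm_one (hpF : (p : F) ≠ 0) (b : Fˣ) : b ∈ nmG p (1 : Fˣ) := by
  have hp0 : p ≠ 0 := hp.out.ne_zero
  set A := AdjoinRoot (X ^ p - C ((1 : Fˣ) : F)) with hA
  have hfin : Module.Finite F A :=
    (AdjoinRoot.powerBasis (Pool.Agent.Y349.EP.ne0 hp.out.pos ((1 : Fˣ) : F))).finite
  have hfree : Module.Free F A := Module.Free.of_divisionRing F A
  let r : A := AdjoinRoot.root (X ^ p - C ((1 : Fˣ) : F))
  have hr : r ^ p = 1 := by
    have := Pool.Agent.Y349.EP.root_pow (p := p) ((1 : Fˣ) : F)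
    rw [Units.val_one, map_one] at this
    exact this
  let ε : A →ₐ[F] F := AdjoinRoot.liftAlgHom _ (Algebra.ofId F F) 1 (by
    change aeval _ _ = _
    rw [map_sub, map_pow, aeval_X, aeval_C, one_pow, Units.val_one, map_one, sub_self])
  have hεr : ε r = 1 := AdjoinRoot.liftAlgHom_root _ _ _ _
  let s : A := ∑ i ∈ Finset.range p, r ^ i
  have hs : r * s = s := by
    simp only [s]
    have h1 : ∑ i ∈ Finset.range (p + 1), r ^ i = ∑ i ∈ Finset.range p, r ^ i + 1 := by
      rw [Finset.sum_range_succ, hr]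
    rw [Finset.sum_range_succ', pow_zero] at h1
    have h2 := add_right_cancel h1
    rw [Finset.mul_sum, ← h2]
    refine Finset.sum_congr rfl fun i _ => ?_
    rw [pow_succ']
  have hx : ∀ x : A, x * s = ε x • s := by
    intro x
    obtain ⟨g, rfl⟩ := Pool.Agent.Y349.EP.aeval_surj _ x
    induction g using Polynomial.induction_on' with
    | add g h hg hh => rw [map_add, add_mul, hg, hh, map_add, add_smul]
    | monomial n c =>
      rw [aeval_monomial, map_mul, AlgHom.commutes, map_pow]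
      change algebraMap F A c * r ^ n * s = (algebraMap F F c * (ε r) ^ n) • s
      rw [hεr, one_pow, mul_one]
      have h3 : r ^ n * s = s := by
        induction n with
        | zero => rw [pow_zero, one_mul]
        | succ n ih => rw [pow_succ, mul_assoc, hs, ih]
      rw [mul_assoc, h3, Algebra.smul_def]
      rfl
  have hεs : ε s = p := by
    simp only [s, map_sum, map_pow, hεr, one_pow, Finset.sum_const, Finset.card_range,
      nsmul_eq_mul, mul_one]
  let e : A := (p : F)⁻¹ • s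
  have hee : ∀ x : A, x * e = ε x • e := by
    intro x
    simp only [e]
    rw [mul_smul_comm, hx, smul_comm]
  have hεe : ε e = 1 := by
    simp only [e]
    rw [map_smul, hεs, smul_eq_mul, inv_mul_cancel₀ hpF]
  have hmul : ∀ t t' : F, (1 + t • e) * (1 + t' • e) = 1 + (t + t' + t * t') • e := by
    intro t t'
    have h4 : e * e = e := by rw [hee, hεe, one_smul]
    have h5 : (1 + t • e) * (1 + t' • e) = 1 + t • e + t' • e + (t * t') • (e * e) := by
      rw [add_mul, mul_add, mul_add, one_mul, one_mul, mul_one, smul_mul_smul_comm]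
      abel
    rw [h5, h4, add_smul, add_smul]
    abel
  have hnorm : ∀ t : F, Algebra.norm F (1 + t • e) = 1 + t := by
    intro t
    rw [Algebra.norm_apply]
    have h6 : Algebra.lmul F A (1 + t • e) = LinearMap.transvection (t • ε.toLinearMap) e := by
      ext x
      rw [LinearMap.transvection.apply]
      change (1 + t • e) * x = x + (t • ε x) • e
      rw [add_mul, one_mul, smul_mul_assoc, mul_comm e x, hee, smul_smul, smul_eq_mul]
    rw [h6, LinearMap.transvection.det]
    change 1 + t • ε e = 1 + t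
    rw [hεe, smul_eq_mul, mul_one]
  have hu : (1 + ((b : F) - 1) • e) * (1 + ((b : F)⁻¹ - 1) • e) = 1 := by
    rw [hmul]
    have hb : (b : F) ≠ 0 := b.ne_zero
    have : (b : F) - 1 + ((b : F)⁻¹ - 1) + ((b : F) - 1) * ((b : F)⁻¹ - 1) = 0 := by
      field_simp
      ring
    rw [this, zero_smul, add_zero]
  refine ⟨⟨1 + ((b : F) - 1) • e, 1 + ((b : F)⁻¹ - 1) • e, hu, by rw [mul_comm]; exact hu⟩, ?_⟩
  ext
  change Algebra.norm F (1 + ((b : F) - 1) • e) = (b : F)
  rw [hnorm]
  ring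

theorem nm_pow (hpF : (p : F) ≠ 0) (b c : Fˣ) : b ∈ nmG p (c ^ p) := by
  have h1 := nm_one (p := p) hpF b
  exact Pool.Agent.Y349.EP.nmG_le (p := p) (c ^ p) c⁻¹ 1 (by
    rw [← Units.val_pow_eq_pow_val, ← Units.val_mul, ← mul_pow, mul_inv_cancel, one_pow]) h1

end split

section

variable {p : ℕ} [hp : Fact p.Prime] {F K : Type} [Field F] [Field K] [Algebra F K] {ζ : F}

/-- product form of sums in `KU` -/
theorem vl_norm {Γ : Type} [Group Γ] [MulSemiringAction Γ K] (σ : Γ) (y : KU K) (n : ℕ) :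
    vl (∑ l ∈ Finset.range n, σ ^ l • y) = ∏ l ∈ Finset.range n, (σ ^ l) • vl y := by
  rw [vl_sum]
  rfl

variable (hP : PCl p F K) (hζ : IsPrimitiveRoot ζ p)
include hP hζ

/-- the two orders of the factors -/
theorem cobOn_comm {Z : Subgroup (K ≃ₐ[F] K)} {a b : Fˣ} (h : CobOn p Z (cup p ζ a b)) :
    CobOn p Z (cup p ζ b a) := by
  exact cup_comm (χ := fun g : Z => chi p ζ a (g : K ≃ₐ[F] K))
    (χ' := fun g : Z => chi p ζ b (g : K ≃ₐ[F] K))
    (fun g k => chi_mul hP hζ a g k) (fun g k => chi_mul hP hζ b g k)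
    ((chi_lc hP hζ a).comp_continuous continuous_subtype_val)
    ((chi_lc hP hζ b).comp_continuous continuous_subtype_val) h

theorem cob_comm {a b : Fˣ} (h : Cob p (cup (K := K) p ζ a b)) :
    Cob p (cup (K := K) p ζ b a) := by
  exact cup_comm (chi_mul hP hζ a) (chi_mul hP hζ b) (chi_lc hP hζ a) (chi_lc hP hζ b) h

/-- NORMCUP in product form, for closed subgroups: norms are local coboundaries -/
theorem cobOn_of_norm {Z : Subgroup (K ≃ₐ[F] K)} (hZ : IsClosed (Z : Set (K ≃ₐ[F] K)))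
    {a b : Fˣ} {σ : K ≃ₐ[F] K} (hσZ : σ ∈ Z) (hσ : chi p ζ a σ = 1) {y : K}
    (hy : ∀ u ∈ Z, chi p ζ a u = 0 → u y = y)
    (hN : ∏ l ∈ Finset.range p, (σ ^ l) y = algebraMap F K (b : F)) :
    CobOn p Z (cup p ζ b a) ∧ CobOn p Z (cup p ζ a b) := by
  have hy0 : y ≠ 0 := by
    rintro rfl
    have h0 : ∏ l ∈ Finset.range p, (σ ^ l) (0 : K) = 0 :=
      Finset.prod_eq_zero (Finset.mem_range.2 hp.out.pos) (map_zero (σ ^ 0))
    rw [h0] at hN
    exact alg_ne b hN.symm
  obtain ⟨β, hβ⟩ := exists_kroot hP (emb K b)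
  have h1 : CobOn p Z (cup p ζ b a) := by
    refine cup_of_norm ((galF hP).sub Z hZ) (hz hζ K) (fun g => zfix g.1) hP.root
      (χ := fun g : Z => chi p ζ a (g : K ≃ₐ[F] K)) (χb := fun g : Z => chi p ζ b (g : K ≃ₐ[F] K))
      (σ := ⟨σ, hσZ⟩) (fun g k => chi_mul hP hζ a g k)
      ((chi_lc hP hζ a).comp_continuous continuous_subtype_val) hσ (β := β) (y := ku y hy0)
      (fun g => chi_kum hζ hβ g) ?_ ?_
    · intro u hu
      apply vl_inj
      exact hy u.1 u.2 hu
    · apply vl_inj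
      rw [vl_norm, hβ, vl_emb, ← hN]
      rfl
  exact ⟨h1, cobOn_comm hP hζ h1⟩

/-- NORMCUP in product form, for closed subgroups: local coboundaries are norms -/
theorem norm_of_cobOn {Z : Subgroup (K ≃ₐ[F] K)} (hZ : IsClosed (Z : Set (K ≃ₐ[F] K)))
    {a b : Fˣ} {σ : K ≃ₐ[F] K} (hσZ : σ ∈ Z) (hσ : chi p ζ a σ = 1)
    (h : CobOn p Z (cup p ζ a b)) :
    ∃ y : K, y ≠ 0 ∧ (∀ u ∈ Z, chi p ζ a u = 0 → u y = y) ∧
      ∏ l ∈ Finset.range p, (σ ^ l) y = algebraMap F K (b : F) := by
  obtain ⟨ρ, hρ, hρ2⟩ := cobOn_comm hP hζ h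
  obtain ⟨β, hβ⟩ := exists_kroot hP (emb K b)
  obtain ⟨y, hy1, hy2⟩ := norm_of_cup ((galF hP).sub Z hZ) (hz hζ K) (fun g => zfix g.1)
    (χ := fun g : Z => chi p ζ a (g : K ≃ₐ[F] K)) (χb := fun g : Z => chi p ζ b (g : K ≃ₐ[F] K))
    (σ := ⟨σ, hσZ⟩) (fun g k => chi_mul hP hζ a g k)
    ((chi_lc hP hζ a).comp_continuous continuous_subtype_val) hσ (β := β)
    (fun g => chi_kum hζ hβ g) hρ hρ2
  refine ⟨vl y, vl_ne y, ?_, ?_⟩
  · intro u hu hu'
    exact congrArg vl (hy1 ⟨u, hu⟩ hu')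
  · have h3 := congrArg vl hy2
    rw [vl_norm, hβ, vl_emb] at h3
    exact h3

omit hP hζ [Algebra F K] in
/-- coboundaries on the whole group -/
theorem cobOn_top {G : Type} [Group G] [TopologicalSpace G] {c : G → G → ZMod p} :
    CobOn p (⊤ : Subgroup G) c ↔ Cob p c := by
  constructor
  · rintro ⟨ρ, hρ, h⟩
    refine ⟨fun g => ρ ⟨g, Subgroup.mem_top g⟩, ?_, ?_⟩
    · exact hρ.comp_continuous (Continuous.subtype_mk continuous_id _)
    · intro g k
      exact h ⟨g, Subgroup.mem_top g⟩ ⟨k, Subgroup.mem_top k⟩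
  · rintro ⟨ρ, hρ, h⟩
    exact ⟨fun g => ρ g, hρ.comp_continuous continuous_subtype_val, fun g k => h g k⟩

omit hP hζ [Algebra F K] in
theorem cob_cobOn {G : Type} [Group G] [TopologicalSpace G] {c : G → G → ZMod p}
    (h : Cob p c) (Z : Subgroup G) : CobOn p Z c := by
  obtain ⟨ρ, hρ, h⟩ := h
  exact ⟨fun g => ρ g, hρ.comp_continuous continuous_subtype_val, fun g k => h g k⟩

/-- the elements fixed by the kernel of `chi a` are polynomials in the `p`-th root of `a` -/
theorem exists_poly {a : Fˣ} {α : K} (hα : α ^ p = algebraMap F K (a : F)) {y : K}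
    (hy : ∀ u : K ≃ₐ[F] K, chi p ζ a u = 0 → u y = y) : ∃ g : F[X], aeval α g = y := by
  have := hP.gal
  have h1 : y ∈ IntermediateField.adjoin F {α} := by
    rw [← InfiniteGalois.fixedField_fixingSubgroup (IntermediateField.adjoin F {α})]
    rintro ⟨u, hu⟩
    change u y = y
    apply hy
    apply chi_eq hζ hα
    rw [ZMod.val_zero, pow_zero, one_mul]
    exact (IntermediateField.mem_fixingSubgroup_iff _ _).1 hu α
      (IntermediateField.subset_adjoin F {α} rfl)
  have h2 : IsIntegral F α := Algebra.IsIntegral.isIntegral α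
  have h3 : y ∈ (IntermediateField.adjoin F {α}).toSubalgebra := h1
  rw [IntermediateField.adjoin_simple_toSubalgebra_of_isAlgebraic h2.isAlgebraic,
    Algebra.adjoin_singleton_eq_range_aeval] at h3
  obtain ⟨g, hg⟩ := h3
  exact ⟨g, hg⟩

theorem p_ne : (p : F) ≠ 0 := by
  have : NeZero p := ⟨hp.out.ne_zero⟩
  exact hζ.neZero'.ne

/-- **NORMCUP** -/
theorem nm_iff (a b : Fˣ) : Nm p a b ↔ Cob p (cup (K := K) p ζ a b) := by
  have hgal := hP.gal
  by_cases ha : ∀ g : K ≃ₐ[F] K, chi p ζ a g = 0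
  · have h1 : Cob p (cup (K := K) p ζ a b) := by
      refine ⟨fun _ => 0, IsLocallyConstant.const 0, fun g k => ?_⟩
      unfold cup
      rw [ha g]
      ring
    obtain ⟨c, rfl⟩ := (chi_zero_iff hP hζ a).1 ha
    have h2 : Nm p (c ^ p) b := nm_pow (p_ne hP hζ) b c
    exact ⟨fun _ => h1, fun _ => h2⟩
  · have hapw : a ∉ Pool.Agent.Y920.EP.pwG F p := by
      rintro ⟨c, rfl⟩
      exact ha fun g => chi_pow_p hP hζ c g
    push Not at ha
    obtain ⟨σ₀, hσ₀⟩ := ha
    obtain ⟨σ, _, hσ⟩ := exists_chi_one hP hζ (Subgroup.mem_top σ₀) hσ₀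
    obtain ⟨α, hα⟩ := exists_kumroot hP a
    have hirr := Pool.Agent.Y349.EP.irr hp.out a hapw
    have hfact := Fact.mk hirr
    -- the embedding of the Kummer extension
    let ι : AdjoinRoot (X ^ p - C (a : F)) →ₐ[F] K :=
      AdjoinRoot.liftAlgHom _ (Algebra.ofId F K) α (by
        change aeval _ _ = _
        rw [map_sub, map_pow, aeval_X, aeval_C, hα, sub_self])
    have hιr : ι (AdjoinRoot.root _) = α := AdjoinRoot.liftAlgHom_root _ _ _ _
    have hιinj : Function.Injective ι := ι.toRingHom.injective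
    have hσl : ∀ (l : ℕ) (g : F[X]), (σ ^ l) (aeval α g) = aeval (ζ ^ l • α) g := by
      intro l g
      have h1 : (σ ^ l) α = ζ ^ l • α := by
        rw [chi_spec hζ hα, Algebra.smul_def, map_pow]
        congr 1
        have h2 : chi p ζ a (σ ^ l) = l := by
          have := chi_pow (χ := (chi p ζ a : (K ≃ₐ[F] K) → ZMod p)) (σ := σ)
            (chi_mul hP hζ a) hσ l
          exact this
        rw [h2]
        have h3 : algebraMap F K ζ ^ p = 1 := (hz hζ K).pow_eq_one
        rw [ZMod.val_natCast]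
        conv_rhs => rw [← Nat.mod_add_div l p, pow_add, pow_mul, h3, one_pow, mul_one]
      rw [← h1]
      exact (Polynomial.aeval_algHom_apply (σ ^ l).toAlgHom α g).symm
    have hprod : ∀ g : F[X], ι (algebraMap F (AdjoinRoot (X ^ p - C (a : F)))
        (Algebra.norm F (aeval (AdjoinRoot.root (X ^ p - C (a : F))) g)))
          = ∏ l ∈ Finset.range p, (σ ^ l) (aeval α g) := by
      intro g
      rw [Pool.Agent.Y349.EP.norm_prod hp.out (a : F) ζ hζ hirr g, map_prod]
      refine Finset.prod_congr rfl fun l _ => ?_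
      rw [hσl, ← Polynomial.aeval_algHom_apply, map_smul, hιr]
    constructor
    · rintro ⟨z, hz⟩
      obtain ⟨g, hg⟩ := Pool.Agent.Y349.EP.aeval_surj (a : F)
        (z : AdjoinRoot (X ^ p - C (a : F)))
      have h1 : Algebra.norm F (z : AdjoinRoot (X ^ p - C (a : F))) = b := congrArg Units.val hz
      have h2 := hprod g
      rw [hg, h1, AlgHom.commutes] at h2
      have h3 := cobOn_of_norm hP hζ (Z := ⊤) isClosed_univ (Subgroup.mem_top σ) hσ
        (y := aeval α g) (b := b) (fun u _ hu => by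
          have h4 : u α = α := by
            rw [chi_spec hζ hα, hu, ZMod.val_zero, pow_zero, one_mul]
          rw [← AlgEquiv.coe_toAlgHom, ← Polynomial.aeval_algHom_apply]
          congr 2) h2.symm
      exact cobOn_top.1 h3.2
    · intro h
      obtain ⟨y, _, hy1, hy2⟩ := norm_of_cobOn hP hζ (Z := ⊤) isClosed_univ (Subgroup.mem_top σ)
        hσ (cobOn_top.2 h)
      obtain ⟨g, rfl⟩ := exists_poly hP hζ hα (fun u hu => hy1 u (Subgroup.mem_top u) hu)
      have h2 := hprod g
      rw [hy2, AlgHom.commutes] at h2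
      have h3 : Algebra.norm F (aeval (AdjoinRoot.root (X ^ p - C (a : F))) g) = b :=
        (algebraMap F K).injective h2
      have h4 : aeval (AdjoinRoot.root (X ^ p - C (a : F))) g ≠ 0 := by
        intro h5
        have hfin : FiniteDimensional F (AdjoinRoot (X ^ p - C (a : F))) :=
          (AdjoinRoot.powerBasis (Pool.Agent.Y349.EP.ne0 hp.out.pos (a : F))).finite
        rw [h5, Algebra.norm_zero] at h3
        exact b.ne_zero h3.symm
      exact ⟨Units.mk0 _ h4, Units.ext h3⟩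

/-- `chi` is the only Kummer character -/
theorem isChi_chi (a : Fˣ) : IsChi p ζ a (chi p ζ a : (K ≃ₐ[F] K) → ZMod p) :=
  fun _ hα g => chi_spec hζ hα g

theorem isChi_iff {a : Fˣ} {χ : (K ≃ₐ[F] K) → ZMod p} : IsChi p ζ a χ ↔ χ = chi p ζ a := by
  constructor
  · intro h
    obtain ⟨α, hα⟩ := exists_kumroot hP a
    funext g
    exact (chi_eq hζ hα (h α hα g)).symm
  · rintro rfl
    exact isChi_chi hP hζ a

theorem glo_iff {a b : Fˣ} : Glo p K ζ a b ↔ Cob p (cup (K := K) p ζ a b) := by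
  constructor
  · intro h
    exact h _ _ (isChi_chi hP hζ a) (isChi_chi hP hζ b)
  · intro h χ ψ hχ hψ
    rw [isChi_iff hP hζ] at hχ hψ
    rw [hχ, hψ]
    exact h

theorem locZ_iff {Z : Subgroup (K ≃ₐ[F] K)} {a b : Fˣ} :
    LocZ p ζ Z a b ↔ CobOn p Z (cup p ζ a b) := by
  constructor
  · intro h
    exact h _ _ (isChi_chi hP hζ a) (isChi_chi hP hζ b)
  · intro h χ ψ hχ hψ
    rw [isChi_iff hP hζ] at hχ hψ
    rw [hχ, hψ]
    exact h

end

theorem t_NORMCUP : Pool.Agent.ETC.S_NORMCUP := by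
  intro p _ F K _ _ _ ζ hζ hP a b
  rw [glo_iff hP hζ]
  exact nm_iff hP hζ a b

end Pool.Agent.Helper95.EC
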