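import Pool.Agent.Helper95.EC.C2

set_option autoImplicit false
set_option linter.unusedSectionVars false

/-! Transport between `Gal(K/E)` and its image in `Gal(K/F)`. -/

namespace Pool.Agent.Helper95.EC

open Pool.Agent.ETC (PCl Nm IsChi Glo LocZ resS)
open Pool.Agent.Helper59.EA (CobOn Cob)

section

variable {p : ℕ} {F K : Type} [Field F] [Field K] [Algebra F K]

/-- a homomorphism to a Galois group is continuous if the stabilizers are open -/
theorem continuous_of_stab [Algebra.IsAlgebraic F K] {Γ : Type} [Group Γ] [TopologicalSpace Γ]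
    [IsTopologicalGroup Γ] (φ : Γ →* (K ≃ₐ[F] K)) (h : ∀ x : K, IsOpen {g : Γ | φ g x = x}) :
    Continuous φ := by
  apply continuous_of_continuousAt_one φ
  rw [ContinuousAt, map_one]
  intro s hs
  rw [krullTopology_mem_nhds_one_iff] at hs
  obtain ⟨E, hE, hEs⟩ := hs
  rw [Filter.mem_map]
  let b' := Module.finBasis F E
  have h1 : IsOpen (⋂ i, {g : Γ | φ g (b' i : K) = (b' i : K)}) :=
    isOpen_iInter_of_finite fun i => h _
  refine Filter.mem_of_superset (h1.mem_nhds ?_) ?_
  · rw [Set.mem_iInter]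
    intro i
    change φ 1 (b' i : K) = (b' i : K)
    rw [map_one]
    rfl
  · intro g hg
    rw [Set.mem_iInter] at hg
    apply hEs
    rw [SetLike.mem_coe, IntermediateField.mem_fixingSubgroup_iff]
    intro x hx
    have h2 : (⟨x, hx⟩ : E) = ∑ i, b'.repr ⟨x, hx⟩ i • b' i := (b'.sum_repr _).symm
    have h3 : x = ∑ i, b'.repr ⟨x, hx⟩ i • (b' i : K) := by
      have := congrArg (algebraMap E K) h2
      rw [map_sum] at this
      refine this.trans (Finset.sum_congr rfl fun i _ => ?_)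
      rfl
    rw [h3, map_sum]
    refine Finset.sum_congr rfl fun i _ => ?_
    rw [map_smul]
    congr 1
    exact hg i

/-- transport of coboundaries along an injective continuous homomorphism of compact groups -/
theorem cobOn_range {Γ Γ' : Type} [Group Γ] [TopologicalSpace Γ] [T2Space Γ] [Group Γ']
    [TopologicalSpace Γ'] [CompactSpace Γ'] (φ : Γ' →* Γ) (hφ : Continuous φ)
    (hinj : Function.Injective φ) {c : Γ → Γ → ZMod p}
    (h : Cob p fun g k => c (φ g) (φ k)) : CobOn p φ.range c := by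
  obtain ⟨ρ, hρ, h⟩ := h
  let e : Γ' ≃ₜ Set.range φ := (hφ.isClosedEmbedding hinj).isEmbedding.toHomeomorph
  have he : ∀ g : Γ', (e g : Γ) = φ g := fun g => rfl
  have hes : ∀ x : φ.range, φ (e.symm ⟨x, x.2⟩) = x := by
    intro x
    rw [← he, e.apply_symm_apply]
  have hmul : ∀ x y : φ.range, e.symm ⟨(x * y : φ.range), (x * y).2⟩
      = e.symm ⟨x, x.2⟩ * e.symm ⟨y, y.2⟩ := by
    intro x y
    apply hinj
    rw [hes, map_mul, hes, hes]
    rfl
  refine ⟨fun x => ρ (e.symm ⟨x, x.2⟩), ?_, ?_⟩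
  · refine hρ.comp_continuous (e.symm.continuous.comp ?_)
    exact Continuous.subtype_mk continuous_subtype_val _
  · intro x y
    have h1 := h (e.symm ⟨x, x.2⟩) (e.symm ⟨y, y.2⟩)
    simp only [hes] at h1
    rw [h1, ← hmul]

theorem cob_of_cobOn_range {Γ Γ' : Type} [Group Γ] [TopologicalSpace Γ] [Group Γ']
    [TopologicalSpace Γ'] (φ : Γ' →* Γ) (hφ : Continuous φ) {c : Γ → Γ → ZMod p}
    (h : CobOn p φ.range c) : Cob p fun g k => c (φ g) (φ k) := by
  obtain ⟨ρ, hρ, h⟩ := h
  have hm : ∀ g, φ g ∈ φ.range := fun g => ⟨g, rfl⟩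
  refine ⟨fun g => ρ ⟨φ g, hm g⟩, hρ.comp_continuous (Continuous.subtype_mk hφ _), ?_⟩
  intro g k
  have h1 : (⟨φ (g * k), hm (g * k)⟩ : φ.range) = ⟨φ g, hm g⟩ * ⟨φ k, hm k⟩ :=
    Subtype.ext (map_mul φ g k)
  change c (φ g) (φ k) = ρ ⟨φ g, hm g⟩ + ρ ⟨φ k, hm k⟩ - ρ ⟨φ (g * k), hm (g * k)⟩
  rw [h1]
  exact h ⟨φ g, hm g⟩ ⟨φ k, hm k⟩

/-- general subgroups -/
theorem cobOn_map {Γ Γ' : Type} [Group Γ] [TopologicalSpace Γ] [T2Space Γ] [Group Γ']
    [TopologicalSpace Γ'] (φ : Γ' →* Γ) (hφ : Continuous φ)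
    (hinj : Function.Injective φ) {c : Γ → Γ → ZMod p} {Z : Subgroup Γ'}
    (hZ : IsCompact (Z : Set Γ')) (h : CobOn p Z fun g k => c (φ g) (φ k)) :
    CobOn p (Z.map φ) c := by
  have := isCompact_iff_compactSpace.1 hZ
  have h1 := cobOn_range (φ.comp Z.subtype) (hφ.comp continuous_subtype_val)
    (hinj.comp Subtype.val_injective) (c := c) h
  rw [MonoidHom.range_comp, Subgroup.range_subtype] at h1
  exact h1

theorem cobOn_of_map {Γ Γ' : Type} [Group Γ] [TopologicalSpace Γ] [Group Γ']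
    [TopologicalSpace Γ'] (φ : Γ' →* Γ) (hφ : Continuous φ) {c : Γ → Γ → ZMod p}
    {Z : Subgroup Γ'} (h : CobOn p (Z.map φ) c) : CobOn p Z fun g k => c (φ g) (φ k) := by
  obtain ⟨ρ, hρ, h⟩ := h
  have hm : ∀ g : Z, φ (g : Γ') ∈ Z.map φ := fun g => ⟨(g : Γ'), g.2, rfl⟩
  refine ⟨fun g => ρ ⟨φ (g : Γ'), hm g⟩,
    hρ.comp_continuous (Continuous.subtype_mk (hφ.comp continuous_subtype_val) _), ?_⟩
  intro g k
  have h1 : (⟨φ ((g * k : Z) : Γ'), hm (g * k)⟩ : Z.map φ)
      = ⟨φ (g : Γ'), hm g⟩ * ⟨φ (k : Γ'), hm k⟩ :=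
    Subtype.ext (map_mul φ (g : Γ') (k : Γ'))
  change c (φ (g : Γ')) (φ (k : Γ')) =
    ρ ⟨φ (g : Γ'), hm g⟩ + ρ ⟨φ (k : Γ'), hm k⟩ - ρ ⟨φ ((g * k : Z) : Γ'), hm (g * k)⟩
  rw [h1]
  exact h ⟨φ g, hm g⟩ ⟨φ k, hm k⟩

end

section

variable {p : ℕ} [hp : Fact p.Prime] {F E K : Type} [Field F] [Field E] [Field K] [Algebra F E]
  [Algebra E K] [Algebra F K] [IsScalarTower F E K] {ζ : F}

theorem resS_apply (g : K ≃ₐ[E] K) (x : K) : resS F E K g x = g x := rfl

theorem resS_inj : Function.Injective (resS F E K) := by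
  intro g h hgh
  ext x
  exact DFunLike.congr_fun hgh x

theorem resS_continuous [Algebra.IsAlgebraic F K] : Continuous (resS F E K) := by
  have : Algebra.IsAlgebraic E K := Algebra.IsAlgebraic.tower_top (K := F) E
  apply continuous_of_stab
  intro x
  have h1 : FiniteDimensional E (IntermediateField.adjoin E {x}) :=
    IntermediateField.adjoin.finiteDimensional (Algebra.IsIntegral.isIntegral x)
  have h2 := (IntermediateField.adjoin E {x}).fixingSubgroup_isOpen
  have h3 : {g : K ≃ₐ[E] K | resS F E K g x = x}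
      = ((IntermediateField.adjoin E {x}).fixingSubgroup : Set (K ≃ₐ[E] K)) := by
    ext g
    rw [SetLike.mem_coe, IntermediateField.mem_fixingSubgroup_iff]
    constructor
    · intro hg y hy
      have hg' : g x = x := hg
      have h4 : IntermediateField.adjoin E {x} ≤
          IntermediateField.fixedField (Subgroup.zpowers g) := by
        rw [IntermediateField.adjoin_le_iff, Set.singleton_subset_iff]
        rintro ⟨k, hk⟩
        have : k ∈ MulAction.stabilizer (K ≃ₐ[E] K) x :=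
          (Subgroup.zpowers_le.2 (by exact hg')) hk
        exact this
      exact h4 hy ⟨g, Subgroup.mem_zpowers g⟩
    · intro hg
      exact hg x (IntermediateField.subset_adjoin E {x} rfl)
  rw [h3]
  exact h2

/-- an automorphism over `F` which fixes `E` comes from `Gal(K/E)` -/
theorem mem_range_resS {g : K ≃ₐ[F] K} :
    g ∈ (resS F E K).range ↔ ∀ e : E, g (algebraMap E K e) = algebraMap E K e := by
  constructor
  · rintro ⟨h, rfl⟩ e
    exact h.commutes e
  · intro h
    exact ⟨{ g with commutes' := h }, by ext x; rfl⟩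

/-- compatibility of the characters -/
theorem chi_resS (hP : PCl p F K) (hζ : IsPrimitiveRoot ζ p) (a : Fˣ) (g : K ≃ₐ[E] K) :
    chi p (algebraMap F E ζ) (Units.map (algebraMap F E).toMonoidHom a) g
      = chi p ζ a (resS F E K g) := by
  obtain ⟨α, hα⟩ := exists_kumroot hP a
  have hα' : α ^ p = algebraMap E K ((Units.map (algebraMap F E).toMonoidHom a : Eˣ) : E) := by
    rw [hα, IsScalarTower.algebraMap_apply F E K]
    rfl
  apply chi_eq (hz hζ E) hα'
  have h1 := chi_spec hζ hα (resS F E K g)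
  rw [resS_apply] at h1
  rw [h1, IsScalarTower.algebraMap_apply F E K]

theorem cup_resS (hP : PCl p F K) (hζ : IsPrimitiveRoot ζ p) (a b : Fˣ) (g k : K ≃ₐ[E] K) :
    cup p (algebraMap F E ζ) (Units.map (algebraMap F E).toMonoidHom a)
      (Units.map (algebraMap F E).toMonoidHom b) g k
      = cup p ζ a b (resS F E K g) (resS F E K k) := by
  unfold cup
  rw [chi_resS hP hζ, chi_resS hP hζ]

/-- local symbols over `E` and over `F` -/
theorem cobOn_resS_iff [Algebra.IsAlgebraic F K] (hP : PCl p F K) (hζ : IsPrimitiveRoot ζ p)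
    (hc : CompactSpace (K ≃ₐ[E] K)) {Z : Subgroup (K ≃ₐ[E] K)}
    (hZ : IsClosed (Z : Set (K ≃ₐ[E] K))) (a b : Fˣ) :
    CobOn p Z (cup p (algebraMap F E ζ) (Units.map (algebraMap F E).toMonoidHom a)
      (Units.map (algebraMap F E).toMonoidHom b)) ↔
      CobOn p (Z.map (resS F E K)) (cup p ζ a b) := by
  constructor
  · intro h
    apply cobOn_map _ resS_continuous resS_inj hZ.isCompact
    exact cobOn_congr h fun g _ k _ => cup_resS hP hζ a b g k
  · intro h
    exact cobOn_congr (cobOn_of_map _ resS_continuous h)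
      fun g _ k _ => (cup_resS hP hζ a b g k).symm

end

/-! ### the fixed field of a closed subgroup -/

section

variable {p : ℕ} [hp : Fact p.Prime] {F K : Type} [Field F] [Field K] [Algebra F K] {ζ : F}

/-- the range of `Gal(K/L)` for the fixed field `L` of a closed subgroup `Z` is `Z` -/
theorem range_fixedField [IsGalois F K] (Z : Subgroup (K ≃ₐ[F] K))
    (hZ : IsClosed (Z : Set (K ≃ₐ[F] K))) :
    (resS F (IntermediateField.fixedField Z) K).range = Z := by
  have h1 := InfiniteGalois.fixingSubgroup_fixedField (k := F) (K := K) ⟨Z, hZ⟩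
  have h2 : (IntermediateField.fixedField Z).fixingSubgroup = Z := h1
  ext g
  have h3 : g ∈ Z ↔ g ∈ (IntermediateField.fixedField Z).fixingSubgroup := by rw [h2]
  rw [mem_range_resS, h3, IntermediateField.mem_fixingSubgroup_iff]
  constructor
  · intro h x hx
    exact h ⟨x, hx⟩
  · rintro h ⟨x, hx⟩
    exact h x hx

end

end Pool.Agent.Helper95.EC
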